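import Pool.Agent.Lib.MP_83608f_co.LIM.Spec
import Pool.Agent.Lib.MP_83608f_co.CN.ONE

/-! MP_83608f_co, part LIM, module A2 (helper58): the balls in `D[Q]`, from `CN/LIMA2`. -/

set_option autoImplicit false

open Classical

noncomputable section

namespace Pool.Agent.Lib.MP_83608f_co.LIM

open Pool.Agent.Lib.MP_83608f_co.CN
open LAY_ (cb)
open SD_ (rs)

namespace A2_

/-- natural numbers, for any description of the relation inside `Q` -/
lemma ball {V : Type} [Fintype V] {A : V → V → Prop} {m δ : ℕ} (Q : Finset V) (x : V) (hcl : NoCl A m) (hx : x ∈ Q)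
    (hQ : ∀ v ∈ Q, δ ≤ (Q.filter fun u => A v u).card) (j : ℕ) (hj : j ≤ m) :
    j * δ ≤ (cb (DCH_.ind A Q) x j).card + 45 * δ := by
  rcases Nat.eq_zero_or_pos δ with h0 | h0
  · rw [h0]
    omega
  have h := LIMA2_.ball_all h0 hcl Q hQ x hx j hj
  have h1 : (j : ℝ) * δ ≤ (cb (DCH_.ind A Q) x j).card + 45 * δ := by linarith
  exact_mod_cast h1

lemma ball' {V : Type} [Fintype V] {A : V → V → Prop} {m δ : ℕ} (Q : Finset V) (x : V) (hcl : NoCl A m) (hx : x ∈ Q)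
    (hQ : ∀ v ∈ Q, δ ≤ (Q.filter fun u => A v u).card) (j : ℕ) (hj : j ≤ m) :
    j * δ ≤ (cb (fun u v => A u v ∧ u ∈ Q ∧ v ∈ Q) x j).card + 45 * δ := by
  have e : (fun u v => A u v ∧ u ∈ Q ∧ v ∈ Q) = DCH_.ind A Q := by
    funext u v
    unfold DCH_.ind
    exact propext ⟨fun h => ⟨h.2.1, h.2.2, h.1⟩, fun h => ⟨h.2.2, h.1, h.2.1⟩⟩
  rw [e]
  exact ball Q x hcl hx hQ j hj

end A2_

theorem specA2 : SpecA2 := ⟨45, fun _ _ _ _ _ Q x hcl hx hQ j hj => A2_.ball Q x hcl hx hQ j hj⟩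

end Pool.Agent.Lib.MP_83608f_co.LIM
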