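import Pool.Agent.Lib.MP_83608f_co.LIM.Spec
import Pool.Agent.Lib.MP_83608f_co.CN.DCH
import Pool.Agent.Lib.MP_83608f_co.CN.K7D
import Pool.Agent.Lib.MP_83608f_co.CN.ONE
import Pool.Agent.Lib.MP_83608f_co.CN.TOPV
import Pool.Agent.Lib.MP_83608f_co.CN.NBL

section
/-! MP_83608f_co, part LIM, module FIN (helper32): the extremal fragment, reversal, and the final count. -/
set_option autoImplicit false

open Classical

noncomputable section

namespace Pool.Agent.Lib.MP_83608f_co.LIM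

open Pool.Agent.Lib.MP_83608f_co.CN
open LAY_ (cb)
open SD_ (rs)

namespace FIN_

variable {V : Type} [Fintype V] {A : V → V → Prop} {k m e c5 : ℕ}

lemma cb_mono (v : V) {i j : ℕ} (h : i ≤ j) : cb A v i ⊆ cb A v j := by
  induction h with
  | refl => exact Finset.Subset.refl _
  | step _ ih => exact ih.trans (LAY_.cb_sub v _)

lemma exists_in (hk : 1 ≤ k) (hin : ∀ v, (Finset.univ.filter fun u => A u v).card = k) (v : V) : ∃ u, A u v := by
  have h1 : (Finset.univ.filter fun u => A u v).Nonempty := by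
    rw [← Finset.card_pos, hin v]
    exact hk
  obtain ⟨u, hu⟩ := h1
  exact ⟨u, (Finset.mem_filter.1 hu).2⟩

/-- a ball of radius at most `m - 1` is not everything -/
lemma cb_ne (hk : 1 ≤ k) (hin : ∀ v, (Finset.univ.filter fun u => A u v).card = k) (hcl : NoCl A m) (v : V) (i : ℕ)
    (hi : i + 1 ≤ m) : cb A v i ≠ Finset.univ := by
  intro h
  obtain ⟨u, hu⟩ := exists_in hk hin v
  exact LAY_.in_notMem hcl v u hu i hi (by rw [h]; exact Finset.mem_univ u)

/-- one step -/
lemma step (hk : 1 ≤ k) (hin : ∀ v, (Finset.univ.filter fun u => A u v).card = k) (hcl : NoCl A m)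
    (gro : ∀ F : Finset V, F.Nonempty → outN A F ≠ Finset.univ → F.card + k ≤ (outN A F).card + e) (v : V) (i : ℕ)
    (hi : i + 2 ≤ m) : (cb A v i).card + k ≤ (cb A v (i + 1)).card + e :=
  gro (cb A v i) ⟨v, LAY_.mem_cb_self v i⟩ (cb_ne hk hin hcl v (i + 1) (by omega))

/-- several steps -/
lemma steps (hk : 1 ≤ k) (he : e ≤ k) (hin : ∀ v, (Finset.univ.filter fun u => A u v).card = k) (hcl : NoCl A m)
    (gro : ∀ F : Finset V, F.Nonempty → outN A F ≠ Finset.univ → F.card + k ≤ (outN A F).card + e) (v : V) (i j : ℕ)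
    (hi : i + j + 1 ≤ m) : (cb A v i).card + j * (k - e) ≤ (cb A v (i + j)).card := by
  induction j with
  | zero => simp
  | succ j ih =>
    have h1 := ih (by omega)
    have h2 := step hk hin hcl gro v (i + j) (by omega)
    have h3 : (j + 1) * (k - e) = j * (k - e) + (k - e) := by ring
    have h4 : i + (j + 1) = i + j + 1 := by ring
    rw [h4]
    omega

lemma cb_zero_card (v : V) : (cb A v 0).card = 1 := by
  rw [cb]
  exact Finset.card_singleton v

/-- lower bound for balls -/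
lemma low (hk : 1 ≤ k) (he : e ≤ k) (hin : ∀ v, (Finset.univ.filter fun u => A u v).card = k) (hcl : NoCl A m)
    (gro : ∀ F : Finset V, F.Nonempty → outN A F ≠ Finset.univ → F.card + k ≤ (outN A F).card + e) (v : V) (j : ℕ)
    (hj : j + 1 ≤ m) : 1 + j * (k - e) ≤ (cb A v j).card := by
  have h := steps hk he hin hcl gro v 0 j (by omega)
  rw [Nat.zero_add, cb_zero_card] at h
  exact h

lemma walk_flip (j : ℕ) (x z : V) (h : z ∈ cb (fun a b => A b a) x j) : x ∈ cb A z j := by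
  have key : ∀ (j : ℕ) (x z : V), z ∈ cb (fun a b => A b a) x j → ∃ i ≤ j, EM.Wk (⟨A⟩ : Digraph V) i z x := by
    intro j x z h
    obtain ⟨i, h1, h2⟩ := LAY_.cb_walk x j z h
    exact ⟨i, h1, CUT_.wk_flip i x z h2⟩
  obtain ⟨i, h1, h2⟩ := key j x z h
  exact (SD_.mem_cb z x j).2 ⟨i, h1, h2⟩

/-- an out-ball and an in-ball around the same vertex -/
lemma two (hcl : NoCl A m) (i j : ℕ) (hij : i + j ≤ m) (x : V) :
    (cb A x i).card + (cb (fun a b => A b a) x j).card ≤ Fintype.card V + 1 := by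
  have h1 : cb A x i ∩ cb (fun a b => A b a) x j ⊆ {x} := by
    intro z hz
    rw [Finset.mem_inter] at hz
    obtain ⟨p, f1, f2⟩ := LAY_.cb_walk x i z hz.1
    obtain ⟨q, f3, f4⟩ := LAY_.cb_walk x j z hz.2
    have f5 := CUT_.wk_flip q x z f4
    have f6 := f2.trans f5
    rw [Finset.mem_singleton]
    rcases Nat.eq_zero_or_pos (p + q) with h | h
    · have hp : p = 0 := by omega
      rw [hp] at f2
      exact (show x = z from f2).symm
    · exact absurd f6 (hcl (p + q) h (by omega) x)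
  have h2 := Finset.card_le_card h1
  rw [Finset.card_singleton] at h2
  have h3 := Finset.card_union_add_card_inter (cb A x i) (cb (fun a b => A b a) x j)
  have h4 := Finset.card_le_univ (cb A x i ∪ cb (fun a b => A b a) x j)
  omega

/-- the reversed digraph has the same property -/
lemma gro_flip (gro : ∀ F : Finset V, F.Nonempty → outN A F ≠ Finset.univ → F.card + k ≤ (outN A F).card + e) :
    ∀ F : Finset V, F.Nonempty → outN (fun a b => A b a) F ≠ Finset.univ →
      F.card + k ≤ (outN (fun a b => A b a) F).card + e := by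
  intro F hF hFu
  have hne : ((outN (fun a b => A b a) F)ᶜ).Nonempty := by
    rw [Finset.nonempty_iff_ne_empty]
    intro h
    rw [Finset.compl_eq_empty_iff] at h
    exact hFu h
  have hsub : outN A (outN (fun a b => A b a) F)ᶜ ⊆ Fᶜ := by
    intro z hz
    rw [Finset.mem_compl]
    intro hzF
    rcases Pool.Agent.Lib.MP_83608f_co.CN.FIN_.mem_outN.1 hz with h | ⟨w, hw, h⟩
    · rw [Finset.mem_compl] at h
      exact h (Pool.Agent.Lib.MP_83608f_co.CN.FIN_.mem_outN.2 (Or.inl hzF))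
    · rw [Finset.mem_compl] at hw
      exact hw (Pool.Agent.Lib.MP_83608f_co.CN.FIN_.mem_outN.2 (Or.inr ⟨z, hzF, h⟩))
  have hnu : outN A (outN (fun a b => A b a) F)ᶜ ≠ Finset.univ := by
    intro h
    obtain ⟨z, hz⟩ := hF
    have := hsub (by rw [h]; exact Finset.mem_univ z)
    rw [Finset.mem_compl] at this
    exact this hz
  have h1 := gro _ hne hnu
  have h2 := Finset.card_le_card hsub
  rw [Finset.card_compl] at h1 h2
  have h3 := Finset.card_le_univ F
  have h4 := Finset.card_le_univ (outN (fun a b => A b a) F)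
  omega

/-- the other side of an extremal set -/
lemma other (gro : ∀ F : Finset V, F.Nonempty → outN A F ≠ Finset.univ → F.card + k ≤ (outN A F).card + e)
    (Q : Finset V) (hQne : Q.Nonempty) (hQ : (outN A Q).card + e = Q.card + k) (hQu : outN A Q ≠ Finset.univ) :
    ((outN A Q)ᶜ).Nonempty ∧ outN (fun a b => A b a) (outN A Q)ᶜ ≠ Finset.univ ∧
      (outN (fun a b => A b a) (outN A Q)ᶜ).card + e = ((outN A Q)ᶜ).card + k := by
  have hne : ((outN A Q)ᶜ).Nonempty := by
    rw [Finset.nonempty_iff_ne_empty]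
    intro h
    rw [Finset.compl_eq_empty_iff] at h
    exact hQu h
  have hsub : outN (fun a b => A b a) (outN A Q)ᶜ ⊆ Qᶜ := by
    intro z hz
    rw [Finset.mem_compl]
    intro hzF
    rcases Pool.Agent.Lib.MP_83608f_co.CN.FIN_.mem_outN.1 hz with h | ⟨w, hw, h⟩
    · rw [Finset.mem_compl] at h
      exact h (Pool.Agent.Lib.MP_83608f_co.CN.FIN_.mem_outN.2 (Or.inl hzF))
    · rw [Finset.mem_compl] at hw
      exact hw (Pool.Agent.Lib.MP_83608f_co.CN.FIN_.mem_outN.2 (Or.inr ⟨z, hzF, h⟩))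
  have hnu : outN (fun a b => A b a) (outN A Q)ᶜ ≠ Finset.univ := by
    intro h
    obtain ⟨z, hz⟩ := hQne
    have := hsub (by rw [h]; exact Finset.mem_univ z)
    rw [Finset.mem_compl] at this
    exact this hz
  refine ⟨hne, hnu, ?_⟩
  have h1 := gro_flip gro _ hne hnu
  have h2 := Finset.card_le_card hsub
  rw [Finset.card_compl] at h1 h2 ⊢
  have h3 := Finset.card_le_univ Q
  have h4 := Finset.card_le_univ (outN A Q)
  omega

/-- the count for one extremal set with at most half of the vertices -/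
lemma core (hA2 : ∀ (V : Type) [Fintype V] (A : V → V → Prop) (m δ : ℕ) (Q : Finset V) (x : V), NoCl A m → x ∈ Q →
      (∀ v ∈ Q, δ ≤ (Q.filter fun u => A v u).card) → ∀ j ≤ m, j * δ ≤ (cb (rs A Q) x j).card + c5 * δ)
    (hLP : SpecLP) {c L : ℕ} (hc : 1 ≤ c) (hk : 1 ≤ k) (he : e ≤ k)
    (hout : ∀ v, (Finset.univ.filter fun u => A v u).card = k)
    (hin : ∀ v, (Finset.univ.filter fun u => A u v).card = k) (hcl : NoCl A m)
    (gro : ∀ F : Finset V, F.Nonempty → outN A F ≠ Finset.univ → F.card + k ≤ (outN A F).card + e)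
    (hn : Fintype.card V ≤ m * k) (hm : 1000 * c + 1000 ≤ m) (Q : Finset V) (hQne : Q.Nonempty)
    (hQ : (outN A Q).card + e = Q.card + k) (hQu : outN A Q ≠ Finset.univ) (hQ2 : 2 * Q.card ≤ Fintype.card V)
    (hA1 : ∃ v ∈ Q, m * (Q.filter fun u => A v u).card ≤ c * k) (hL : 2 * (150 * c + 30) ≤ L) :
    ∃ δ, e ≤ δ ∧ m * δ ≤ c * k ∧
      L * (m * k) ≤ L * Fintype.card V + L * (c5 * δ) + L * ((238 * c + 51) * e) + L * L * e +
        2 * (75 * c + 14) * (150 * c + 30) * k := by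
  have gri := gro_flip gro
  -- the vertex of least degree
  obtain ⟨x, hx, hxmin⟩ := Finset.exists_min_image Q (fun v => (Q.filter fun u => A v u).card) hQne
  obtain ⟨δ, hδ⟩ : ∃ δ, δ = (Q.filter fun u => A x u).card := ⟨_, rfl⟩
  have hmδ : m * δ ≤ c * k := by
    obtain ⟨v, hv, h1⟩ := hA1
    refine le_trans (Nat.mul_le_mul_left m ?_) h1
    rw [hδ]
    exact hxmin v hv
  -- `e ≤ δ`
  have heδ : e ≤ δ := by
    have h1 : (Finset.univ.filter fun u => A x u) ⊆ (Q.filter fun u => A x u) ∪ (outN A Q \ Q) := by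
      intro u hu
      rw [Finset.mem_filter] at hu
      rw [Finset.mem_union, Finset.mem_filter, Finset.mem_sdiff]
      by_cases huQ : u ∈ Q
      · exact Or.inl ⟨huQ, hu.2⟩
      · exact Or.inr ⟨Pool.Agent.Lib.MP_83608f_co.CN.FIN_.mem_outN.2 (Or.inr ⟨x, hx, hu.2⟩), huQ⟩
    have h2 := (Finset.card_le_card h1).trans (Finset.card_union_le _ _)
    rw [hout x, ← hδ] at h2
    have h3 : Q ⊆ outN A Q := fun u hu => Pool.Agent.Lib.MP_83608f_co.CN.FIN_.mem_outN.2 (Or.inl hu)
    have h4 := Finset.card_sdiff_add_card_eq_card h3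
    omega
  have hme : m * e ≤ c * k := (Nat.mul_le_mul_left m heδ).trans hmδ
  obtain ⟨C', hC'⟩ : ∃ C', C' = 238 * c + 51 := ⟨_, rfl⟩
  obtain ⟨m', hm'⟩ : ∃ m', m' = m - C' := ⟨_, rfl⟩
  have hmm' : m' + C' = m := by omega
  -- the radius `i₁`
  have hex : ∃ i, outN A (cb A x i ∪ Q) = Finset.univ ∨ i = m' := ⟨m', Or.inr rfl⟩
  obtain ⟨i₁, hi₁⟩ : ∃ i₁, i₁ = Nat.find hex := ⟨_, rfl⟩
  have hi1s : outN A (cb A x i₁ ∪ Q) = Finset.univ ∨ i₁ = m' := by
    rw [hi₁]
    exact Nat.find_spec hex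
  have hi1m : i₁ ≤ m' := by
    rw [hi₁]
    exact Nat.find_min' hex (Or.inr rfl)
  have hi1min : ∀ i < i₁, outN A (cb A x i ∪ Q) ≠ Finset.univ := fun i hi h => by
    rw [hi₁] at hi
    exact Nat.find_min hex hi (Or.inl h)
  -- lower bound for `n`
  have hlow := low hk he hin hcl gro x
  have hlow' := low (A := fun a b => A b a) hk he hout (CUT_.nocl_flip hcl) gri x
  have hnlow : m * (k - e) ≤ Fintype.card V := by
    have h1 := hlow (m - 1) (by omega)
    have h2 := hlow' 1 (by omega)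
    have h3 := two hcl (m - 1) 1 (by omega) x
    obtain ⟨t, rfl⟩ : ∃ t, m = t + 1 := ⟨m - 1, by omega⟩
    rw [Nat.add_sub_cancel] at h1 h3
    have h4 : (t + 1) * (k - e) = t * (k - e) + 1 * (k - e) := by ring
    omega
  -- `i₁` is large
  have hi1big : 450 * c + 300 ≤ i₁ := by
    rcases hi1s with h | h
    · by_contra hlt
      have h1 : (outN A Q)ᶜ ⊆ cb A x (i₁ + 1) := by
        intro z hz
        rw [Finset.mem_compl] at hz
        have h2 : z ∈ outN A (cb A x i₁ ∪ Q) := by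
          rw [h]
          exact Finset.mem_univ z
        rcases Pool.Agent.Lib.MP_83608f_co.CN.FIN_.mem_outN.1 h2 with h3 | ⟨w, hw, h3⟩
        · rcases Finset.mem_union.1 h3 with h4 | h4
          · exact LAY_.cb_sub x i₁ h4
          · exact absurd (Pool.Agent.Lib.MP_83608f_co.CN.FIN_.mem_outN.2 (Or.inl h4)) hz
        · rcases Finset.mem_union.1 hw with h4 | h4
          · exact Pool.Agent.Lib.MP_83608f_co.CN.FIN_.mem_outN.2 (Or.inr ⟨w, h4, h3⟩)
          · exact absurd (Pool.Agent.Lib.MP_83608f_co.CN.FIN_.mem_outN.2 (Or.inr ⟨w, h4, h3⟩)) hz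
      have h2 := Finset.card_le_card h1
      rw [Finset.card_compl] at h2
      -- the ball is small
      have h3 := two hcl (i₁ + 1) (m - (i₁ + 1)) (by omega) x
      have h4 := hlow' (m - (i₁ + 1)) (by omega)
      obtain ⟨f, hf⟩ : ∃ f, k = f + e := ⟨k - e, by omega⟩
      have hf' : k - e = f := by omega
      rw [hf'] at h4 hnlow
      obtain ⟨r, hr⟩ : ∃ r, m = i₁ + 1 + r := ⟨m - (i₁ + 1), by omega⟩
      have hr' : m - (i₁ + 1) = r := by omega
      rw [hr'] at h3 h4
      -- all in terms of products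
      have g1 : m * k = m * f + m * e := by rw [hf]; ring
      have g2 : m * f = (i₁ + 1) * f + r * f := by rw [hr]; ring
      have g3 : (i₁ + 1) * f ≤ (i₁ + 1) * k := Nat.mul_le_mul_left _ (by omega)
      have g4 : (i₁ + 1) * k ≤ (450 * c + 300) * k := Nat.mul_le_mul_right _ (by omega)
      have g5 : (1000 * c + 1000) * k ≤ m * k := Nat.mul_le_mul_right _ hm
      have g6 : (1000 * c + 1000) * k = 1000 * (c * k) + 1000 * k := by ring
      have g7 : (450 * c + 300) * k = 450 * (c * k) + 300 * k := by ring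
      have g8 := Finset.card_le_univ (outN A Q)
      omega
    · rw [h]
      omega
  -- the situation of the local modules
  have hLim : Lim A k m e δ c i₁ Q x :=
    { hk := hk, hc := hc, hout := hout, hin := hin, hcl := hcl, gro := gro, gri := gri, hn := hn, he := heδ,
      hδ := hmδ, hm := hm, hx := hx, hδx := hδ.symm, hδQ := fun v hv => by rw [hδ]; exact hxmin v hv,
      hQ := hQ, hQu := hQu, hi := hi1min, hi₁ := hi1big, hi₁' := by omega }
  obtain ⟨hP1, hP2⟩ := hLP V A k m e δ c i₁ Q x hLim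
  have hball := hA2 V A m δ Q x hcl hx (fun v hv => by rw [hδ]; exact hxmin v hv)
  have hδk : δ ≤ k := by
    rw [hδ, ← hout x]
    exact Finset.card_le_card (Finset.filter_subset_filter _ (Finset.subset_univ Q))
  refine ⟨δ, heδ, hmδ, ?_⟩
  rw [← hC'] at hP2 ⊢
  rw [← hm'] at hP2
  -- the in-ball
  have hX := hlow' C' (by omega)
  have hT := two hcl m' C' (by omega) x
  obtain ⟨f, hf⟩ : ∃ f, k = f + e := ⟨k - e, by omega⟩
  obtain ⟨s, hs⟩ : ∃ s, k = s + δ := ⟨k - δ, by omega⟩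
  have hf' : k - e = f := by omega
  have hs' : k - δ = s := by omega
  rw [hf'] at hX
  rw [hs'] at hP1 hP2
  have e1 : m * k = m' * k + C' * k := by rw [← hmm']; ring
  have e2 : C' * k = C' * f + C' * e := by rw [hf]; ring
  have e3 : m' * k = m' * s + m' * δ := by rw [hs]; ring
  have e4 : L * (m * k) = L * (m' * k) + L * (C' * f) + L * (C' * e) := by rw [e1, e2]; ring
  have hTL := Nat.mul_le_mul_left L hT
  have hXL := Nat.mul_le_mul_left L hX
  have e5 : L * ((cb A x m').card + (cb (fun a b => A b a) x C').card) =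
      L * (cb A x m').card + L * (cb (fun a b => A b a) x C').card := by ring
  have e6 : L * (Fintype.card V + 1) = L * Fintype.card V + L := by ring
  have e7 : L * (1 + C' * f) = L + L * (C' * f) := by ring
  -- the out-ball
  have hmain : L * (m' * k) ≤ L * (cb A x m').card + L * (c5 * δ) + L * L * e +
      2 * (75 * c + 14) * (150 * c + 30) * k := by
    by_cases hcase : outN A (cb A x i₁ ∪ Q) = Finset.univ ∧ i₁ + L ≤ m'
    · have h1 := hP2 hcase.1 L hL hcase.2
      have h2 := Nat.mul_le_mul_left L (hball m' (by omega))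
      have h3 : L * (m' * s + (cb (rs A Q) x m').card) = L * (m' * s) + L * (cb (rs A Q) x m').card := by ring
      have h4 : L * (m' * k) = L * (m' * s) + L * (m' * δ) := by rw [e3]; ring
      have h5 : L * ((cb (rs A Q) x m').card + c5 * δ) = L * (cb (rs A Q) x m').card + L * (c5 * δ) := by ring
      have h6 : 0 ≤ L * L * e := Nat.zero_le _
      omega
    · have hlt : m' < i₁ + L := by
        by_contra hge
        rcases hi1s with h | h
        · exact hcase ⟨h, by omega⟩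
        · omega
      obtain ⟨j, hj⟩ : ∃ j, m' = i₁ + j := ⟨m' - i₁, by omega⟩
      have h1 := steps hk he hin hcl gro x i₁ j (by omega)
      rw [hf', ← hj] at h1
      have h2 := hball i₁ (by omega)
      have h3 : m' * k = i₁ * s + i₁ * δ + j * f + j * e := by
        rw [hj]
        have : (i₁ + j) * k = i₁ * k + j * k := by ring
        rw [this]
        nth_rewrite 1 [hs]
        rw [hf]
        ring
      have h4 : j * e ≤ L * e := Nat.mul_le_mul_right e (by omega)
      have h5 : m' * k ≤ (cb A x m').card + c5 * δ + L * e := by omega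
      have h6 := Nat.mul_le_mul_left L h5
      have h7 : L * ((cb A x m').card + c5 * δ + L * e) = L * (cb A x m').card + L * (c5 * δ) + L * L * e := by ring
      omega
  omega

end FIN_

/-- **the final count**, with natural numbers -/
theorem finC (hA1 : SpecA1) (hA2 : SpecA2) (hLP : SpecLP) : ∃ K M : ℕ, ∀ (V : Type) [Fintype V] [Nonempty V]
    (A : V → V → Prop) (k m : ℕ), 1 ≤ k → M ≤ m → NoCl A m →
    (∀ v, (Finset.univ.filter fun u => A v u).card = k) → (∀ v, (Finset.univ.filter fun u => A u v).card = k) →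
    ∀ L, M ≤ L → m * (L * (m * k)) ≤ m * (L * Fintype.card V) + K * ((L + L * L + m) * k) := by
  obtain ⟨c, M₁, hc, hA1⟩ := hA1
  obtain ⟨c5, hA2⟩ := hA2
  refine ⟨c * (c5 + (238 * c + 51)) + c + 2 * (75 * c + 14) * (150 * c + 30), M₁ + 1000 * c + 1000, ?_⟩
  intro V _ _ A k m hk hm hcl hout hin L hL
  obtain ⟨K, hK⟩ : ∃ K, K = c * (c5 + (238 * c + 51)) + c + 2 * (75 * c + 14) * (150 * c + 30) := ⟨_, rfl⟩
  rw [← hK]
  rcases Nat.lt_or_ge (m * k) (Fintype.card V) with hn | hn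
  · have h1 := Nat.mul_le_mul_left m (Nat.mul_le_mul_left L hn.le)
    omega
  -- the maximal excess
  have hex : ∃ e, ∀ F : Finset V, F.Nonempty → outN A F ≠ Finset.univ → F.card + k ≤ (outN A F).card + e :=
    ⟨k, fun F _ _ => Nat.add_le_add_right (Finset.card_le_card fun u hu =>
      Pool.Agent.Lib.MP_83608f_co.CN.FIN_.mem_outN.2 (Or.inl hu)) k⟩
  obtain ⟨e, hee⟩ : ∃ e, e = Nat.find hex := ⟨_, rfl⟩
  have gro : ∀ F : Finset V, F.Nonempty → outN A F ≠ Finset.univ → F.card + k ≤ (outN A F).card + e := by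
    rw [hee]
    exact Nat.find_spec hex
  have he : e ≤ k := by
    rw [hee]
    exact Nat.find_min' hex fun F _ _ => Nat.add_le_add_right (Finset.card_le_card fun u hu =>
      Pool.Agent.Lib.MP_83608f_co.CN.FIN_.mem_outN.2 (Or.inl hu)) k
  -- an extremal set
  obtain ⟨Q, hQne, hQ, hQu⟩ : ∃ Q : Finset V, Q.Nonempty ∧ (outN A Q).card + e = Q.card + k ∧
      outN A Q ≠ Finset.univ := by
    rcases Nat.eq_zero_or_pos e with h0 | h0
    · obtain ⟨v⟩ := ‹Nonempty V›
      have h1 : cb A v 1 ≠ Finset.univ := FIN_.cb_ne hk hin hcl v 1 (by omega)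
      have h2 : outN A ({v} : Finset V) = cb A v 1 := rfl
      refine ⟨{v}, ⟨v, Finset.mem_singleton_self v⟩, ?_, by rw [h2]; exact h1⟩
      have h3 := gro {v} ⟨v, Finset.mem_singleton_self v⟩ (by rw [h2]; exact h1)
      have h4 : outN A ({v} : Finset V) ⊆ {v} ∪ (Finset.univ.filter fun u => A v u) := by
        intro z hz
        rcases Pool.Agent.Lib.MP_83608f_co.CN.FIN_.mem_outN.1 hz with h | ⟨w, hw, h⟩
        · exact Finset.mem_union_left _ h
        · rw [Finset.mem_singleton] at hw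
          rw [hw] at h
          exact Finset.mem_union_right _ (Finset.mem_filter.2 ⟨Finset.mem_univ _, h⟩)
      have h5 := (Finset.card_le_card h4).trans (Finset.card_union_le _ _)
      rw [hout v] at h5
      omega
    · have h1 : ¬ ∀ F : Finset V, F.Nonempty → outN A F ≠ Finset.univ → F.card + k ≤ (outN A F).card + (e - 1) :=
        Nat.find_min hex (by omega)
      push Not at h1
      obtain ⟨F, hF, hFu, h2⟩ := h1
      have h3 := gro F hF hFu
      exact ⟨F, hF, by omega, hFu⟩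
  have hn0 : 0 < Fintype.card V := Fintype.card_pos
  -- choose the side
  have key : ∃ δ, e ≤ δ ∧ m * δ ≤ c * k ∧
      L * (m * k) ≤ L * Fintype.card V + L * (c5 * δ) + L * ((238 * c + 51) * e) + L * L * e +
        2 * (75 * c + 14) * (150 * c + 30) * k := by
    rcases Nat.lt_or_ge (Fintype.card V) (2 * Q.card) with hlt | hge
    · obtain ⟨g1, g2, g3⟩ := FIN_.other gro Q hQne hQ hQu
      have g4 : 2 * ((outN A Q)ᶜ).card ≤ Fintype.card V := by
        rw [Finset.card_compl]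
        omega
      have hcl' := CUT_.nocl_flip hcl
      exact FIN_.core (A := fun a b => A b a) (c5 := c5) hA2 hLP hc hk he hin hout hcl' (FIN_.gro_flip gro) hn
        (by omega) _ g1 g3 g2 g4 (hA1 V (fun a b => A b a) k m hk (by omega) hcl' hin hout _ g1 (by omega) (by omega))
        (by omega)
    · exact FIN_.core (c5 := c5) hA2 hLP hc hk he hout hin hcl gro hn (by omega) Q hQne hQ hQu hge
        (hA1 V A k m hk (by omega) hcl hout hin Q hQne (by omega) (by omega)) (by omega)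
  obtain ⟨δ, h1, h2, h3⟩ := key
  have h4 := Nat.mul_le_mul_left m h3
  have h5 : m * e ≤ c * k := (Nat.mul_le_mul_left m h1).trans h2
  have e1 : m * (L * Fintype.card V + L * (c5 * δ) + L * ((238 * c + 51) * e) + L * L * e +
      2 * (75 * c + 14) * (150 * c + 30) * k) = m * (L * Fintype.card V) + L * c5 * (m * δ) +
      L * (238 * c + 51) * (m * e) + L * L * (m * e) + 2 * (75 * c + 14) * (150 * c + 30) * (m * k) := by ring
  rw [e1] at h4
  have h6 : L * c5 * (m * δ) ≤ L * c5 * (c * k) := Nat.mul_le_mul_left _ h2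
  have h7 : L * (238 * c + 51) * (m * e) ≤ L * (238 * c + 51) * (c * k) := Nat.mul_le_mul_left _ h5
  have h8 : L * L * (m * e) ≤ L * L * (c * k) := Nat.mul_le_mul_left _ h5
  refine h4.trans ?_
  have h9 : L * c5 * (c * k) + L * (238 * c + 51) * (c * k) + L * L * (c * k) +
      2 * (75 * c + 14) * (150 * c + 30) * (m * k) ≤ K * ((L + L * L + m) * k) := by
    have g1 : c * (c5 + (238 * c + 51)) ≤ K := by omega
    have g2 : c ≤ K := by
      have : c ≤ c * (c5 + (238 * c + 51)) + c := by omega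
      omega
    have g3 : 2 * (75 * c + 14) * (150 * c + 30) ≤ K := by omega
    have g4 := Nat.mul_le_mul_right (L * k) g1
    have g5 := Nat.mul_le_mul_right (L * L * k) g2
    have g6 := Nat.mul_le_mul_right (m * k) g3
    have e2 : K * ((L + L * L + m) * k) = K * (L * k) + K * (L * L * k) + K * (m * k) := by ring
    have e3 : c * (c5 + (238 * c + 51)) * (L * k) = L * c5 * (c * k) + L * (238 * c + 51) * (c * k) := by ring
    have e4 : c * (L * L * k) = L * L * (c * k) := by ring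
    rw [e2]
    omega
  omega

end Pool.Agent.Lib.MP_83608f_co.LIM
end
end

section
/-! MP_83608f_co, part LIM, module L4 (helper85): sections 4 and 5 of the note, `specLP`. -/
set_option autoImplicit false

open Classical

noncomputable section

namespace Pool.Agent.Lib.MP_83608f_co.LIM

open Pool.Agent.Lib.MP_83608f_co.CN
open LAY_ (cb mem_cb_self cb_sub)
open SD_ (rs)
open LIM4_ (Ni Ai mem_Ni mem_Ai Ni_mono Ai_mono cb_mono tele stepL stepT1 stepT2 stepS2)

namespace L4_

/-- strict telescoping -/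
lemma teleS (f : ℕ → ℝ) (c : ℝ) {a b : ℕ} (hab : a < b) (h : ∀ i, a ≤ i → i < b → f i < f (i + 1) + c) :
    f a < f b + (b - a : ℕ) * c := by
  have h1 := tele f c (by omega : a + 1 ≤ b) fun i hi hi' => (h i (by omega) hi').le
  have h2 := h a le_rfl hab
  have h3 : ((b - a : ℕ) : ℝ) = ((b - (a + 1) : ℕ) : ℝ) + 1 := by
    have : b - a = (b - (a + 1)) + 1 := by omega
    rw [this]
    push_cast
    ring
  rw [h3]
  linarith

variable {V : Type} [Fintype V] {A : V → V → Prop} {k m e δ : ℕ} {Q S : Finset V} {nr : V → Prop} {x : V}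

/-- the ball inside `Q` consists of near vertices -/
lemma ball_Ni {C' : ℕ} (hcl : NoCl A m) (hx : x ∈ Q) (nx : nr x)
    (n3 : ∀ z ∈ Q, nr z → ∀ z' ∈ Q, A z z' → nr z' ∨ x ∈ cb A z' C') :
    ∀ i, i + C' ≤ m → cb (rs A Q) x i ⊆ Ni A Q nr x i := by
  intro i
  induction i with
  | zero =>
    intro _ z hz
    rw [cb, Finset.mem_singleton] at hz
    rw [hz]
    exact mem_Ni.2 ⟨mem_cb_self x 0, hx, nx⟩
  | succ i ih =>
    intro hi z hz
    rw [cb, FIN_.mem_outN] at hz
    rcases hz with h | ⟨y, hy, h⟩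
    · exact Ni_mono (Nat.le_succ i) (ih (by omega) h)
    · exact stepS2 hcl nx n3 (by omega) (ih (by omega) hy) h.2.1 h.2.2

lemma ball_sub (hx : x ∈ Q) (i : ℕ) : cb (rs A Q) x i ⊆ cb A x i ∩ Q := by
  induction i with
  | zero =>
    intro z hz
    rw [cb, Finset.mem_singleton] at hz
    rw [hz, Finset.mem_inter]
    exact ⟨mem_cb_self x 0, hx⟩
  | succ i ih =>
    intro z hz
    rw [cb, FIN_.mem_outN] at hz
    rw [Finset.mem_inter]
    rcases hz with h | ⟨y, hy, h⟩
    · have := Finset.mem_inter.1 (ih h)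
      exact ⟨cb_sub x i this.1, this.2⟩
    · have := Finset.mem_inter.1 (ih hy)
      exact ⟨FIN_.mem_outN.2 (Or.inr ⟨y, this.1, h.2.2⟩), h.2.1⟩

/-- the late steps -/
lemma late {C' c3 L i1 M : ℕ} (hcl : NoCl A m)
    (hfr : ∀ F : Finset V, F.Nonempty → outN A F ≠ Finset.univ → F.card + k ≤ (outN A F).card + e)
    (hQS : Disjoint Q S) (hcut : ∀ a ∈ Q, ∀ b, A a b → b ∈ Q ∨ b ∈ S)
    (hS1 : (S.filter fun s => ¬ A x s).card + e = δ) (hU : ∃ u, u ∉ Q ∧ u ∉ S) (nx : nr x)
    (n1 : ∀ a ∈ Q, ∀ z ∈ Q, A a z → nr z → nr a ∨ x ∈ cb A a C')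
    (n2 : ∀ a ∈ Q, ∀ s, s ∉ Q → A x s → A a s → nr a)
    (n3 : ∀ z ∈ Q, nr z → ∀ z' ∈ Q, A z z' → nr z' ∨ x ∈ cb A z' C')
    (n4 : (Q.filter nr).card ≤ c3 * k)
    (hne : ∀ i, i + 1 ≤ m → cb A x i ≠ Finset.univ)
    (hC : 1 ≤ C') (hMC : M + C' = m) (h2δ : 2 * δ ≤ k) (hk : 1 ≤ k) (hL : 2 * (2 + 2 * c3) ≤ L)
    (hUi : outN A (cb A x i1 ∪ Q) = Finset.univ) (hiL : i1 + L ≤ M)
    (hE : (i1 : ℝ) * (k - δ) + (Ni A Q nr x i1).card ≤ (cb A x i1).card) :
    (L : ℝ) * (M * (k - δ) + (Ni A Q nr x M).card) ≤ L * (cb A x M).card + 2 * c3 * (2 + 2 * c3) * k := by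
  obtain ⟨b, hb⟩ : ∃ b : ℕ → ℝ, ∀ i, b i = ((cb A x i).card : ℝ) := ⟨_, fun _ => rfl⟩
  obtain ⟨ν, hν⟩ : ∃ ν : ℕ → ℝ, ∀ i, ν i = ((Ni A Q nr x i).card : ℝ) := ⟨_, fun _ => rfl⟩
  have hνmono : ∀ i j, i ≤ j → ν i ≤ ν j := fun i j hij => by
    rw [hν, hν]
    exact_mod_cast Finset.card_le_card (Ni_mono (A := A) (Q := Q) (nr := nr) (x := x) hij)
  have hν0 : ∀ i, 0 ≤ ν i := fun i => by rw [hν]; exact Nat.cast_nonneg _
  have hνc : ∀ i, ν i ≤ c3 * k := fun i => by
    rw [hν]
    have h1 : Ni A Q nr x i ⊆ Q.filter nr := fun z hz =>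
      Finset.mem_filter.2 (mem_Ni.1 hz).2
    exact_mod_cast (Finset.card_le_card h1).trans n4
  have hkδ : (k : ℝ) ≤ 2 * (k - δ) := by
    have : (2 : ℝ) * δ ≤ k := by exact_mod_cast h2δ
    linarith
  have hk1 : (1 : ℝ) ≤ k := by exact_mod_cast hk
  have hk0 : (0 : ℝ) ≤ k := by linarith
  have c30 : (0 : ℝ) ≤ c3 := Nat.cast_nonneg _
  have hL0 : (2 : ℝ) * (2 + 2 * c3) ≤ L := by exact_mod_cast hL
  -- the potential
  obtain ⟨g, hg⟩ : ∃ g : ℕ → ℝ, ∀ i, g i = b i - i * (k - δ) - ν i := ⟨_, fun _ => rfl⟩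
  have p1 : 0 ≤ g i1 := by
    rw [hg, hb, hν]
    linarith
  -- threshold
  have ex3 : ∃ i, (i1 ≤ i ∧ (Ai A Q nr x i).Nonempty) ∨ M ≤ i := ⟨M, Or.inr le_rfl⟩
  obtain ⟨i3, hi3⟩ : ∃ i3, i3 = Nat.find ex3 := ⟨_, rfl⟩
  have h3spec : (i1 ≤ i3 ∧ (Ai A Q nr x i3).Nonempty) ∨ M ≤ i3 := by rw [hi3]; exact Nat.find_spec ex3
  have h3min : ∀ i, i < i3 → i1 ≤ i → ¬ (Ai A Q nr x i).Nonempty := fun i hi h h' => by
    rw [hi3] at hi
    exact Nat.find_min ex3 hi (Or.inl ⟨h, h'⟩)
  have h3M : i3 ≤ M := by rw [hi3]; exact Nat.find_min' ex3 (Or.inr le_rfl)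
  have h13 : i1 ≤ i3 := by
    rcases h3spec with h | h
    · exact h.1
    · omega
  have hUB : ∀ u, u ∉ Q → u ∉ S → u ∈ cb A x (i1 + 1) := by
    intro u h1 h2
    have h3 : u ∈ outN A (cb A x i1 ∪ Q) := by rw [hUi]; exact Finset.mem_univ u
    rw [FIN_.mem_outN] at h3
    simp only [Finset.mem_union] at h3
    rcases h3 with (h | h) | ⟨w, h | h, h'⟩
    · exact cb_sub x i1 h
    · exact absurd h h1
    · exact FIN_.mem_outN.2 (Or.inr ⟨w, h, h'⟩)
    · rcases hcut w h u h' with h4 | h4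
      · exact absurd h4 h1
      · exact absurd h4 h2
  -- the transitional steps are few
  have hc4 : i3 ≤ i1 + (2 + 2 * c3) := by
    by_contra hlt
    have t1 := tele ν (-((k : ℝ) - δ)) (by omega : i1 + 1 ≤ i3 - 1) fun i hi hi' => by
      have h1 := stepT1 (Q := Q) (S := S) (nr := nr) hfr hS1 (by omega : 1 ≤ i) (hne (i + 1) (by omega))
        (fun u h1 h2 => cb_mono x hi (hUB u h1 h2)) (h3min (i + 1) (by omega) (by omega))
      have h2 : ν i + k ≤ ν (i + 1) + δ := by
        rw [hν, hν]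
        exact_mod_cast h1
      linarith
    have t2 := hνc (i3 - 1)
    have t3 := hν0 (i1 + 1)
    have t4 : ((i3 - 1 - (i1 + 1) : ℕ) : ℝ) ≥ 2 * c3 + 1 := by
      have : 2 * c3 + 1 ≤ i3 - 1 - (i1 + 1) := by omega
      exact_mod_cast this
    have t5 : (2 * (c3 : ℝ) + 1) * ((k : ℝ) - δ) ≤ ((i3 - 1 - (i1 + 1) : ℕ) : ℝ) * ((k : ℝ) - δ) :=
      mul_le_mul_of_nonneg_right t4 (by linarith)
    nlinarith
  -- choice of `j`
  have hLM : (L : ℝ) ≤ 2 * ((M - i3 : ℕ) : ℝ) := by
    have : L ≤ 2 * (M - i3) := by omega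
    exact_mod_cast this
  have hi3M : i3 < M := by omega
  obtain ⟨j, hj1, hj2, hj3⟩ : ∃ j, i3 ≤ j ∧ j < M ∧ (L : ℝ) * (ν (j + 1) - ν j) ≤ 2 * c3 * k := by
    by_contra hno
    have t1 := teleS (fun i => (L : ℝ) * ν i) (-(2 * c3 * k)) hi3M fun i h1 h2 => by
      by_contra h3
      exact hno ⟨i, h1, h2, by simp only [not_lt] at h3; linarith⟩
    have t2 := mul_le_mul_of_nonneg_left (hνc M) (Nat.cast_nonneg L : (0 : ℝ) ≤ L)
    have t3 := mul_nonneg (Nat.cast_nonneg L : (0 : ℝ) ≤ L) (hν0 i3)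
    have t4 : (L : ℝ) * (c3 * k) ≤ 2 * ((M - i3 : ℕ) : ℝ) * (c3 * k) :=
      mul_le_mul_of_nonneg_right hLM (by positivity)
    nlinarith
  obtain ⟨d, hd⟩ : ∃ d : ℝ, d = ν (j + 1) - ν j := ⟨_, rfl⟩
  have hd0 : 0 ≤ d := by rw [hd]; linarith [hνmono j (j + 1) (Nat.le_succ j)]
  have p2 := tele g d h13 fun i hi hi' => by
    have h1 := stepT2 hcl hfr hS1 hcut nx n3 (by omega : i ≤ j) (by omega : j + 1 + C' ≤ m)
      (hne (j + 1) (by omega))
    have h2 : b i + k + ν (i + 1) + ν j ≤ b (i + 1) + ν i + δ + ν (j + 1) := by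
      rw [hb, hb, hν, hν, hν, hν]
      exact_mod_cast h1
    rw [hg, hg, hd]
    push_cast
    linarith
  have p3 := tele g 0 h3M fun i hi hi' => by
    have hA3 : (Ai A Q nr x i3).Nonempty := by
      rcases h3spec with h | h
      · exact h.2
      · omega
    have h1 := stepL hcl hfr hS1 hQS hcut hU nx n1 n2 (by omega) (hA3.mono (Ai_mono hi))
    have h' : b i + k + ν (i + 1) ≤ b (i + 1) + ν i + δ := by
      rw [hb, hb, hν, hν]
      exact_mod_cast h1
    rw [hg, hg]
    push_cast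
    linarith
  have p4 : ((i3 - i1 : ℕ) : ℝ) * d ≤ (2 + 2 * c3) * d := by
    have h1 : ((i3 - i1 : ℕ) : ℝ) ≤ 2 + 2 * c3 := by
      have : i3 - i1 ≤ 2 + 2 * c3 := by omega
      exact_mod_cast this
    exact mul_le_mul_of_nonneg_right h1 hd0
  have p6 : ((M - i3 : ℕ) : ℝ) * 0 = 0 := mul_zero _
  have p7 : g M = b M - M * (k - δ) - ν M := hg M
  rw [← hb, ← hν]
  rw [← hd] at hj3
  have p8 : 0 ≤ b M - M * (k - δ) - ν M + (2 + 2 * c3) * d := by
    rw [← p7]
    linarith
  have p9 := mul_nonneg (Nat.cast_nonneg L : (0 : ℝ) ≤ L) p8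
  have p10 : (2 + 2 * (c3 : ℝ)) * ((L : ℝ) * d) ≤ (2 + 2 * c3) * (2 * c3 * k) :=
    mul_le_mul_of_nonneg_left hj3 (by positivity)
  nlinarith

end L4_

theorem specLP (hL2 : SpecL2) (hL3 : SpecL3) : SpecLP := by
  intro V _ A k m e δ c i₁ Q x h
  obtain ⟨-, -, -, -, -, -, -, hEs, -, -⟩ := hL2 V A k m e δ c i₁ Q x h
  obtain ⟨g1, g2, g3, g4, g5⟩ := hL3 V A k m e δ c i₁ Q x h
  have hk := h.hk
  have hm := h.hm
  have h2δ : 2 * δ ≤ k := by
    have h1 := h.hδ
    by_contra hlt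
    have h2 : 2 * (m * δ) ≤ 2 * (c * k) := Nat.mul_le_mul_left 2 h1
    have h3 : m * (k + 1) ≤ m * (2 * δ) := Nat.mul_le_mul_left m (by omega)
    have h4 : (1000 * c + 1000) * (k + 1) ≤ m * (k + 1) := Nat.mul_le_mul_right _ hm
    nlinarith
  refine ⟨?_, fun hUi L hL hiL => ?_⟩
  · have h1 := hEs i₁ le_rfl
    have h2 := Finset.card_le_card (L4_.ball_sub (A := A) h.hx i₁)
    omega
  · have hQsub : Q ⊆ outN A Q := fun v hv => FIN_.mem_outN.2 (Or.inl hv)
    obtain ⟨S, hSdef⟩ : ∃ S, S = outN A Q \ Q := ⟨_, rfl⟩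
    have hS : S.card + e = k := by
      have h1 := Finset.card_sdiff_add_card_eq_card hQsub
      have h2 := h.hQ
      rw [← hSdef] at h1
      omega
    have hQS : Disjoint Q S := by
      rw [hSdef]
      exact Finset.disjoint_sdiff
    have hcut : ∀ a ∈ Q, ∀ b, A a b → b ∈ Q ∨ b ∈ S := by
      intro a ha b hab
      by_cases hb : b ∈ Q
      · exact Or.inl hb
      · refine Or.inr ?_
        rw [hSdef, Finset.mem_sdiff]
        exact ⟨FIN_.mem_outN.2 (Or.inr ⟨a, ha, hab⟩), hb⟩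
    have hU : ∃ u, u ∉ Q ∧ u ∉ S := by
      by_contra hno
      apply h.hQu
      rw [Finset.eq_univ_iff_forall]
      intro u
      by_contra hu
      refine hno ⟨u, fun h1 => hu (hQsub h1), fun h1 => hu ?_⟩
      rw [hSdef, Finset.mem_sdiff] at h1
      exact h1.1
    have hS1 := LIM4_.card_S1 hQS hcut hS h.hx h.hδx (h.hout x)
    have nx : Near A (6 * c + 2) x x := ⟨x, mem_cb_self x _, mem_cb_self x _⟩
    have n1 : ∀ a ∈ Q, ∀ z ∈ Q, A a z → Near A (6 * c + 2) x z →
        Near A (6 * c + 2) x a ∨ x ∈ cb A a (238 * c + 51) := fun a ha z _ haz hz =>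
      g1 a ha (g3 a z haz hz)
    have n2 : ∀ a ∈ Q, ∀ s, s ∉ Q → A x s → A a s → Near A (6 * c + 2) x a := fun a _ s hs hxs has =>
      g2 a s (by rw [Sx, Finset.mem_sdiff, Finset.mem_filter]; exact ⟨⟨Finset.mem_univ _, hxs⟩, hs⟩) has
    have n3 : ∀ z ∈ Q, Near A (6 * c + 2) x z → ∀ z' ∈ Q, A z z' →
        Near A (6 * c + 2) x z' ∨ x ∈ cb A z' (238 * c + 51) := fun z _ hz z' hz' hzz' =>
      g1 z' hz' (g4 z z' hzz' hz)
    have hne : ∀ i, i + 1 ≤ m → cb A x i ≠ Finset.univ := by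
      intro i hi hu
      have h1 : (Finset.univ.filter fun u => A u x).Nonempty := by
        rw [← Finset.card_pos, h.hin x]
        exact hk
      obtain ⟨v, hv⟩ := h1
      rw [Finset.mem_filter] at hv
      exact LAY_.in_notMem h.hcl x v hv.2 i hi (by rw [hu]; exact Finset.mem_univ v)
    obtain ⟨M, hM⟩ : ∃ M, M = m - (238 * c + 51) := ⟨_, rfl⟩
    rw [← hM] at hiL ⊢
    have hkδ : ((k - δ : ℕ) : ℝ) = k - δ := by rw [Nat.cast_sub (by omega)]
    have hE : (i₁ : ℝ) * (k - δ) + (Ni A Q (Near A (6 * c + 2) x) x i₁).card ≤ (cb A x i₁).card := by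
      have h1 := hEs i₁ le_rfl
      have h2 : (Ni A Q (Near A (6 * c + 2) x) x i₁).card ≤ (cb A x i₁ ∩ Q).card :=
        Finset.card_le_card fun z hz => Finset.mem_inter.2 ⟨(mem_Ni.1 hz).1, (mem_Ni.1 hz).2.1⟩
      have h3 : i₁ * (k - δ) + (Ni A Q (Near A (6 * c + 2) x) x i₁).card ≤ (cb A x i₁).card := by omega
      rw [← hkδ]
      exact_mod_cast h3
    have hfin := L4_.late (c3 := 75 * c + 14) (M := M) h.hcl h.gro hQS hcut hS1 hU nx n1 n2 n3 g5 hne
      (by omega) (by omega) h2δ hk (by omega) hUi hiL hE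
    have hb := Finset.card_le_card (L4_.ball_Ni h.hcl h.hx nx n3 M (by omega))
    have hb' : ((cb (rs A Q) x M).card : ℝ) ≤ (Ni A Q (Near A (6 * c + 2) x) x M).card := by
      exact_mod_cast hb
    have hL0 : (0 : ℝ) ≤ L := Nat.cast_nonneg _
    have hfin2 : (L : ℝ) * (M * ((k - δ : ℕ) : ℝ) + (cb (rs A Q) x M).card) ≤
        L * (cb A x M).card + 2 * (75 * c + 14) * (150 * c + 30) * k := by
      have h1 : (L : ℝ) * (M * ((k - δ : ℕ) : ℝ) + (cb (rs A Q) x M).card) ≤
          L * (M * (k - δ) + (Ni A Q (Near A (6 * c + 2) x) x M).card) := by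
        rw [hkδ]
        exact mul_le_mul_of_nonneg_left (by linarith) hL0
      refine h1.trans (hfin.trans (le_of_eq ?_))
      push_cast
      ring
    exact_mod_cast hfin2

end Pool.Agent.Lib.MP_83608f_co.LIM
end
end

section
/-! MP_83608f_co, part LIM, module L5 (helper56): the late steps with loss `O(δ)` instead of `O(k / L)`, and the count with
error `O(δ) = O(k / m)`.

The loss in the transitional steps is at most `c₄` times the least increment of the near set in a late step.  If all these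
increments exceed `K δ`, `K = 1 + c₅ + c₄ + C'`, then the near set, hence the ball, is too large for `n ≤ m k`. -/
set_option autoImplicit false

open Classical

noncomputable section

namespace Pool.Agent.Lib.MP_83608f_co.LIM

open Pool.Agent.Lib.MP_83608f_co.CN
open LAY_ (cb mem_cb_self cb_sub)
open SD_ (rs)
open LIM4_ (Ni Ai mem_Ni mem_Ai Ni_mono Ai_mono cb_mono tele stepL stepT1 stepT2 stepS2)

namespace L5_

variable {V : Type} [Fintype V] {A : V → V → Prop} {k m e δ : ℕ} {Q S : Finset V} {nr : V → Prop} {x : V}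

/-- the late steps -/
lemma late {C' c3 c5 i1 M : ℕ} (hcl : NoCl A m)
    (hfr : ∀ F : Finset V, F.Nonempty → outN A F ≠ Finset.univ → F.card + k ≤ (outN A F).card + e)
    (hQS : Disjoint Q S) (hcut : ∀ a ∈ Q, ∀ b, A a b → b ∈ Q ∨ b ∈ S)
    (hS1 : (S.filter fun s => ¬ A x s).card + e = δ) (hU : ∃ u, u ∉ Q ∧ u ∉ S) (nx : nr x)
    (n1 : ∀ a ∈ Q, ∀ z ∈ Q, A a z → nr z → nr a ∨ x ∈ cb A a C')
    (n2 : ∀ a ∈ Q, ∀ s, s ∉ Q → A x s → A a s → nr a)
    (n3 : ∀ z ∈ Q, nr z → ∀ z' ∈ Q, A z z' → nr z' ∨ x ∈ cb A z' C')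
    (n4 : (Q.filter nr).card ≤ c3 * k)
    (hne : ∀ i, i + 1 ≤ m → cb A x i ≠ Finset.univ)
    (hC : 1 ≤ C') (hMC : M + C' = m) (h2δ : 2 * δ ≤ k) (hk : 1 ≤ k)
    (hUi : outN A (cb A x i1 ∪ Q) = Finset.univ) (hiL : i1 + 2 * (2 + 2 * c3) + 1 ≤ M)
    (hE : (i1 : ℝ) * (k - δ) + (Ni A Q nr x i1).card ≤ (cb A x i1).card)
    (hlow : ∀ i, i ≤ M → (i : ℝ) * δ ≤ (Ni A Q nr x i).card + c5 * δ)
    (hup : ((cb A x M).card : ℝ) ≤ M * k + C' * δ) :
    (M : ℝ) * (k - δ) + (Ni A Q nr x M).card ≤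
      (cb A x M).card + (2 + 2 * c3) * ((1 + c5 + (2 + 2 * c3) + C') * δ) := by
  obtain ⟨b, hb⟩ : ∃ b : ℕ → ℝ, ∀ i, b i = ((cb A x i).card : ℝ) := ⟨_, fun _ => rfl⟩
  obtain ⟨ν, hν⟩ : ∃ ν : ℕ → ℝ, ∀ i, ν i = ((Ni A Q nr x i).card : ℝ) := ⟨_, fun _ => rfl⟩
  have hνmono : ∀ i j, i ≤ j → ν i ≤ ν j := fun i j hij => by
    rw [hν, hν]
    exact_mod_cast Finset.card_le_card (Ni_mono (A := A) (Q := Q) (nr := nr) (x := x) hij)
  have hν0 : ∀ i, 0 ≤ ν i := fun i => by rw [hν]; exact Nat.cast_nonneg _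
  have hνc : ∀ i, ν i ≤ c3 * k := fun i => by
    rw [hν]
    have h1 : Ni A Q nr x i ⊆ Q.filter nr := fun z hz =>
      Finset.mem_filter.2 (mem_Ni.1 hz).2
    exact_mod_cast (Finset.card_le_card h1).trans n4
  have hkδ : (k : ℝ) ≤ 2 * (k - δ) := by
    have : (2 : ℝ) * δ ≤ k := by exact_mod_cast h2δ
    linarith
  have hk1 : (1 : ℝ) ≤ k := by exact_mod_cast hk
  have hk0 : (0 : ℝ) ≤ k := by linarith
  have hδ0 : (0 : ℝ) ≤ δ := Nat.cast_nonneg _
  have c30 : (0 : ℝ) ≤ c3 := Nat.cast_nonneg _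
  have c50 : (0 : ℝ) ≤ c5 := Nat.cast_nonneg _
  have cC0 : (0 : ℝ) ≤ C' := Nat.cast_nonneg _
  -- the potential
  obtain ⟨g, hg⟩ : ∃ g : ℕ → ℝ, ∀ i, g i = b i - i * (k - δ) - ν i := ⟨_, fun _ => rfl⟩
  have p1 : 0 ≤ g i1 := by
    rw [hg, hb, hν]
    linarith
  -- threshold
  have ex3 : ∃ i, (i1 ≤ i ∧ (Ai A Q nr x i).Nonempty) ∨ M ≤ i := ⟨M, Or.inr le_rfl⟩
  obtain ⟨i3, hi3⟩ : ∃ i3, i3 = Nat.find ex3 := ⟨_, rfl⟩
  have h3spec : (i1 ≤ i3 ∧ (Ai A Q nr x i3).Nonempty) ∨ M ≤ i3 := by rw [hi3]; exact Nat.find_spec ex3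
  have h3min : ∀ i, i < i3 → i1 ≤ i → ¬ (Ai A Q nr x i).Nonempty := fun i hi h h' => by
    rw [hi3] at hi
    exact Nat.find_min ex3 hi (Or.inl ⟨h, h'⟩)
  have h3M : i3 ≤ M := by rw [hi3]; exact Nat.find_min' ex3 (Or.inr le_rfl)
  have h13 : i1 ≤ i3 := by
    rcases h3spec with h | h
    · exact h.1
    · omega
  have hUB : ∀ u, u ∉ Q → u ∉ S → u ∈ cb A x (i1 + 1) := by
    intro u h1 h2
    have h3 : u ∈ outN A (cb A x i1 ∪ Q) := by rw [hUi]; exact Finset.mem_univ u
    rw [FIN_.mem_outN] at h3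
    simp only [Finset.mem_union] at h3
    rcases h3 with (h | h) | ⟨w, h | h, h'⟩
    · exact cb_sub x i1 h
    · exact absurd h h1
    · exact FIN_.mem_outN.2 (Or.inr ⟨w, h, h'⟩)
    · rcases hcut w h u h' with h4 | h4
      · exact absurd h4 h1
      · exact absurd h4 h2
  -- the transitional steps are few
  have hc4 : i3 ≤ i1 + (2 + 2 * c3) := by
    by_contra hlt
    have t1 := tele ν (-((k : ℝ) - δ)) (by omega : i1 + 1 ≤ i3 - 1) fun i hi hi' => by
      have h1 := stepT1 (Q := Q) (S := S) (nr := nr) hfr hS1 (by omega : 1 ≤ i) (hne (i + 1) (by omega))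
        (fun u h1 h2 => cb_mono x hi (hUB u h1 h2)) (h3min (i + 1) (by omega) (by omega))
      have h2 : ν i + k ≤ ν (i + 1) + δ := by
        rw [hν, hν]
        exact_mod_cast h1
      linarith
    have t2 := hνc (i3 - 1)
    have t3 := hν0 (i1 + 1)
    have t4 : ((i3 - 1 - (i1 + 1) : ℕ) : ℝ) ≥ 2 * c3 + 1 := by
      have : 2 * c3 + 1 ≤ i3 - 1 - (i1 + 1) := by omega
      exact_mod_cast this
    have t5 : (2 * (c3 : ℝ) + 1) * ((k : ℝ) - δ) ≤ ((i3 - 1 - (i1 + 1) : ℕ) : ℝ) * ((k : ℝ) - δ) :=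
      mul_le_mul_of_nonneg_right t4 (by linarith)
    nlinarith
  have hi3M : i3 < M := by omega
  -- the estimate with the increment of step `j`
  have key : ∀ j, i3 ≤ j → j < M →
      (M : ℝ) * (k - δ) + ν M ≤ b M + (2 + 2 * c3) * (ν (j + 1) - ν j) := by
    intro j hj1 hj2
    obtain ⟨d, hd⟩ : ∃ d : ℝ, d = ν (j + 1) - ν j := ⟨_, rfl⟩
    have hd0 : 0 ≤ d := by rw [hd]; linarith [hνmono j (j + 1) (Nat.le_succ j)]
    have p2 := tele g d h13 fun i hi hi' => by
      have h1 := stepT2 hcl hfr hS1 hcut nx n3 (by omega : i ≤ j) (by omega : j + 1 + C' ≤ m)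
        (hne (j + 1) (by omega))
      have h2 : b i + k + ν (i + 1) + ν j ≤ b (i + 1) + ν i + δ + ν (j + 1) := by
        rw [hb, hb, hν, hν, hν, hν]
        exact_mod_cast h1
      rw [hg, hg, hd]
      push_cast
      linarith
    have p3 := tele g 0 h3M fun i hi hi' => by
      have hA3 : (Ai A Q nr x i3).Nonempty := by
        rcases h3spec with h | h
        · exact h.2
        · omega
      have h1 := stepL hcl hfr hS1 hQS hcut hU nx n1 n2 (by omega) (hA3.mono (Ai_mono hi))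
      have h' : b i + k + ν (i + 1) ≤ b (i + 1) + ν i + δ := by
        rw [hb, hb, hν, hν]
        exact_mod_cast h1
      rw [hg, hg]
      push_cast
      linarith
    have p4 : ((i3 - i1 : ℕ) : ℝ) * d ≤ (2 + 2 * c3) * d := by
      have h1 : ((i3 - i1 : ℕ) : ℝ) ≤ 2 + 2 * c3 := by
        have : i3 - i1 ≤ 2 + 2 * c3 := by omega
        exact_mod_cast this
      exact mul_le_mul_of_nonneg_right h1 hd0
    have p6 : ((M - i3 : ℕ) : ℝ) * 0 = 0 := mul_zero _
    have p7 : g M = b M - M * (k - δ) - ν M := hg M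
    rw [← hd]
    linarith
  -- the least increment
  obtain ⟨K, hK⟩ : ∃ K : ℝ, K = 1 + c5 + (2 + 2 * c3) + C' := ⟨_, rfl⟩
  obtain ⟨j, hj, hjmin⟩ := Finset.exists_min_image (Finset.Ico i3 M) (fun j => ν (j + 1) - ν j)
    ⟨i3, Finset.mem_Ico.2 ⟨le_rfl, hi3M⟩⟩
  rw [Finset.mem_Ico] at hj
  have hkey := key j hj.1 hj.2
  rw [← hb, ← hν, ← hK]
  have c40 : (0 : ℝ) ≤ 2 + 2 * c3 := by positivity
  rcases le_or_gt (ν (j + 1) - ν j) (K * δ) with hle | hgt
  · have := mul_le_mul_of_nonneg_left hle c40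
    linarith
  · exfalso
    obtain ⟨d, hd⟩ : ∃ d : ℝ, d = ν (j + 1) - ν j := ⟨_, rfl⟩
    rw [← hd] at hkey hgt
    have t1 := tele ν (-d) h3M fun i h1 h2 => by
      have h3 := hjmin i (Finset.mem_Ico.2 ⟨h1, h2⟩)
      rw [← hd] at h3
      linarith
    obtain ⟨f, hf⟩ : ∃ f, M = i3 + (2 + 2 * c3) + 1 + f := ⟨M - (i3 + (2 + 2 * c3) + 1), by omega⟩
    have hMf : ((M - i3 : ℕ) : ℝ) = (2 + 2 * c3) + (1 + f) := by
      have : M - i3 = (2 + 2 * c3) + (1 + f) := by omega
      rw [this]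
      push_cast
      ring
    rw [hMf] at t1
    have t2 := hlow i3 h3M
    rw [← hν] at t2
    rw [← hb] at hup
    have hMr : (M : ℝ) = i3 + (2 + 2 * c3) + 1 + f := by
      rw [hf]
      push_cast
      ring
    have f0 : (0 : ℝ) ≤ f := Nat.cast_nonneg _
    -- `ν M ≥ ν i3 + (c4 + 1 + f) d`
    have t3 : (K * δ) * (1 + f) < d * (1 + f) := mul_lt_mul_of_pos_right hgt (by linarith)
    have t4 : ((1 + f : ℝ) + (K - 1)) * δ ≤ (K * δ) * (1 + f) := by
      have h1 : 0 ≤ K - 1 := by rw [hK]; linarith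
      have h2 : (K * δ) * (1 + f) - ((1 + f : ℝ) + (K - 1)) * δ = (K - 1) * f * δ := by ring
      have h3 : 0 ≤ (K - 1) * f * (δ : ℝ) := by positivity
      linarith
    have t5 : (M : ℝ) * k + C' * δ < b M := by
      have h1 : (M : ℝ) * (k - δ) + (i3 * δ - c5 * δ) + d * (1 + f) ≤ b M := by nlinarith
      have h2 : (M : ℝ) * (k - δ) + (i3 * δ - c5 * δ) + ((1 + f : ℝ) + (K - 1)) * δ = M * k + C' * δ := by
        rw [hMr, hK]
        ring
      linarith
    linarith

end L5_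

/-- the result of sections 1 - 4 of the note, with loss `O(δ)` -/
theorem lp5 (hL2 : SpecL2) (hL3 : SpecL3) (c5 : ℕ) (V : Type) [Fintype V] (A : V → V → Prop) (k m e δ c i₁ : ℕ)
    (Q : Finset V) (x : V) (h : Lim A k m e δ c i₁ Q x)
    (hball : ∀ j ≤ m, j * δ ≤ (cb (rs A Q) x j).card + c5 * δ)
    (hup : (cb A x (m - (238 * c + 51))).card ≤ (m - (238 * c + 51)) * k + (238 * c + 51) * δ)
    (hUi : outN A (cb A x i₁ ∪ Q) = Finset.univ)
    (hiL : i₁ + 2 * (150 * c + 30) + 1 ≤ m - (238 * c + 51)) :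
    (m - (238 * c + 51)) * (k - δ) + (cb (rs A Q) x (m - (238 * c + 51))).card ≤
      (cb A x (m - (238 * c + 51))).card + (150 * c + 30) * ((1 + c5 + (150 * c + 30) + (238 * c + 51)) * δ) := by
  obtain ⟨-, -, -, -, -, -, -, hEs, -, -⟩ := hL2 V A k m e δ c i₁ Q x h
  obtain ⟨g1, g2, g3, g4, g5⟩ := hL3 V A k m e δ c i₁ Q x h
  have hk := h.hk
  have hm := h.hm
  have h2δ : 2 * δ ≤ k := by
    have h1 := h.hδ
    by_contra hlt
    have h2 : 2 * (m * δ) ≤ 2 * (c * k) := Nat.mul_le_mul_left 2 h1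
    have h3 : m * (k + 1) ≤ m * (2 * δ) := Nat.mul_le_mul_left m (by omega)
    have h4 : (1000 * c + 1000) * (k + 1) ≤ m * (k + 1) := Nat.mul_le_mul_right _ hm
    nlinarith
  have hQsub : Q ⊆ outN A Q := fun v hv => FIN_.mem_outN.2 (Or.inl hv)
  obtain ⟨S, hSdef⟩ : ∃ S, S = outN A Q \ Q := ⟨_, rfl⟩
  have hS : S.card + e = k := by
    have h1 := Finset.card_sdiff_add_card_eq_card hQsub
    have h2 := h.hQ
    rw [← hSdef] at h1
    omega
  have hQS : Disjoint Q S := by
    rw [hSdef]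
    exact Finset.disjoint_sdiff
  have hcut : ∀ a ∈ Q, ∀ b, A a b → b ∈ Q ∨ b ∈ S := by
    intro a ha b hab
    by_cases hb : b ∈ Q
    · exact Or.inl hb
    · refine Or.inr ?_
      rw [hSdef, Finset.mem_sdiff]
      exact ⟨FIN_.mem_outN.2 (Or.inr ⟨a, ha, hab⟩), hb⟩
  have hU : ∃ u, u ∉ Q ∧ u ∉ S := by
    by_contra hno
    apply h.hQu
    rw [Finset.eq_univ_iff_forall]
    intro u
    by_contra hu
    refine hno ⟨u, fun h1 => hu (hQsub h1), fun h1 => hu ?_⟩
    rw [hSdef, Finset.mem_sdiff] at h1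
    exact h1.1
  have hS1 := LIM4_.card_S1 hQS hcut hS h.hx h.hδx (h.hout x)
  have nx : Near A (6 * c + 2) x x := ⟨x, mem_cb_self x _, mem_cb_self x _⟩
  have n1 : ∀ a ∈ Q, ∀ z ∈ Q, A a z → Near A (6 * c + 2) x z →
      Near A (6 * c + 2) x a ∨ x ∈ cb A a (238 * c + 51) := fun a ha z _ haz hz =>
    g1 a ha (g3 a z haz hz)
  have n2 : ∀ a ∈ Q, ∀ s, s ∉ Q → A x s → A a s → Near A (6 * c + 2) x a := fun a _ s hs hxs has =>
    g2 a s (by rw [Sx, Finset.mem_sdiff, Finset.mem_filter]; exact ⟨⟨Finset.mem_univ _, hxs⟩, hs⟩) has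
  have n3 : ∀ z ∈ Q, Near A (6 * c + 2) x z → ∀ z' ∈ Q, A z z' →
      Near A (6 * c + 2) x z' ∨ x ∈ cb A z' (238 * c + 51) := fun z _ hz z' hz' hzz' =>
    g1 z' hz' (g4 z z' hzz' hz)
  have hne : ∀ i, i + 1 ≤ m → cb A x i ≠ Finset.univ := by
    intro i hi hu
    have h1 : (Finset.univ.filter fun u => A u x).Nonempty := by
      rw [← Finset.card_pos, h.hin x]
      exact hk
    obtain ⟨v, hv⟩ := h1
    rw [Finset.mem_filter] at hv
    exact LAY_.in_notMem h.hcl x v hv.2 i hi (by rw [hu]; exact Finset.mem_univ v)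
  obtain ⟨M, hM⟩ : ∃ M, M = m - (238 * c + 51) := ⟨_, rfl⟩
  rw [← hM] at hiL hup ⊢
  have hkδ : ((k - δ : ℕ) : ℝ) = k - δ := by rw [Nat.cast_sub (by omega)]
  have hE : (i₁ : ℝ) * (k - δ) + (Ni A Q (Near A (6 * c + 2) x) x i₁).card ≤ (cb A x i₁).card := by
    have h1 := hEs i₁ le_rfl
    have h2 : (Ni A Q (Near A (6 * c + 2) x) x i₁).card ≤ (cb A x i₁ ∩ Q).card :=
      Finset.card_le_card fun z hz => Finset.mem_inter.2 ⟨(mem_Ni.1 hz).1, (mem_Ni.1 hz).2.1⟩
    have h3 : i₁ * (k - δ) + (Ni A Q (Near A (6 * c + 2) x) x i₁).card ≤ (cb A x i₁).card := by omega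
    rw [← hkδ]
    exact_mod_cast h3
  have hlow : ∀ i, i ≤ M → (i : ℝ) * δ ≤ (Ni A Q (Near A (6 * c + 2) x) x i).card + c5 * δ := by
    intro i hi
    have h1 := Finset.card_le_card (L4_.ball_Ni h.hcl h.hx nx n3 i (by omega))
    have h2 := hball i (by omega)
    have h3 : i * δ ≤ (Ni A Q (Near A (6 * c + 2) x) x i).card + c5 * δ := by omega
    exact_mod_cast h3
  have hfin := L5_.late (C' := 238 * c + 51) (c3 := 75 * c + 14) (c5 := c5) (M := M) h.hcl h.gro hQS hcut hS1 hU nx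
    n1 n2 n3 g5 hne (by omega) (by omega) h2δ hk hUi (by omega) hE hlow (by exact_mod_cast hup)
  have hb := Finset.card_le_card (L4_.ball_Ni h.hcl h.hx nx n3 M (by omega))
  have hb' : ((cb (rs A Q) x M).card : ℝ) ≤ (Ni A Q (Near A (6 * c + 2) x) x M).card := by
    exact_mod_cast hb
  have hfin2 : (M : ℝ) * ((k - δ : ℕ) : ℝ) + (cb (rs A Q) x M).card ≤
      (cb A x M).card + (150 * c + 30) * ((1 + c5 + (150 * c + 30) + (238 * c + 51)) * δ) := by
    rw [hkδ]
    push_cast at hfin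
    have e1 : (2 + 2 * (75 * (c : ℝ) + 14)) = 150 * c + 30 := by ring
    rw [e1] at hfin
    linarith
  exact_mod_cast hfin2

end Pool.Agent.Lib.MP_83608f_co.LIM
end
end

section
/-! MP_83608f_co, part LIM, module L2 (helper16): balls, the inequality (E), near vertices. -/
set_option autoImplicit false

open Classical

noncomputable section

namespace Pool.Agent.Lib.MP_83608f_co.LIM

open Pool.Agent.Lib.MP_83608f_co.CN
open LAY_ (cb)
open SD_ (rs)

namespace L2_

variable {V : Type} [Fintype V] {A : V → V → Prop} {k m e δ c i₁ : ℕ} {Q : Finset V} {x : V}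

lemma outN_mono {F G : Finset V} (h : F ⊆ G) : outN A F ⊆ outN A G := fun v hv => by
  rw [FIN_.mem_outN] at hv ⊢
  rcases hv with h1 | ⟨u, h1, h2⟩
  · exact Or.inl (h h1)
  · exact Or.inr ⟨u, h h1, h2⟩

lemma outN_union (F G : Finset V) : outN A (F ∪ G) = outN A F ∪ outN A G := by
  ext v
  rw [Finset.mem_union, FIN_.mem_outN, FIN_.mem_outN, FIN_.mem_outN]
  constructor
  · rintro (h | ⟨u, h, h'⟩)
    · rcases Finset.mem_union.1 h with h | h
      · exact Or.inl (Or.inl h)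
      · exact Or.inr (Or.inl h)
    · rcases Finset.mem_union.1 h with h | h
      · exact Or.inl (Or.inr ⟨u, h, h'⟩)
      · exact Or.inr (Or.inr ⟨u, h, h'⟩)
  · rintro ((h | ⟨u, h, h'⟩) | (h | ⟨u, h, h'⟩))
    · exact Or.inl (Finset.mem_union_left _ h)
    · exact Or.inr ⟨u, Finset.mem_union_left _ h, h'⟩
    · exact Or.inl (Finset.mem_union_right _ h)
    · exact Or.inr ⟨u, Finset.mem_union_right _ h, h'⟩

lemma low_gen (hk : 1 ≤ k) (hin : ∀ v, (Finset.univ.filter fun u => A u v).card = k) (hcl : NoCl A m)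
    (gro : ∀ F : Finset V, F.Nonempty → outN A F ≠ Finset.univ → F.card + k ≤ (outN A F).card + e)
    (v : V) (t : ℕ) (ht : t + 1 ≤ m) : 1 + t * k ≤ (cb A v t).card + t * e := by
  induction t with
  | zero =>
    have : (cb A v 0).card = 1 := by
      rw [cb]
      exact Finset.card_singleton v
    omega
  | succ t ih =>
    have h1 := ih (by omega)
    have hne : (Finset.univ.filter fun u => A u v).Nonempty := by
      rw [← Finset.card_pos, hin v]
      exact hk
    obtain ⟨u, hu⟩ := hne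
    rw [Finset.mem_filter] at hu
    have h2 : outN A (cb A v t) ≠ Finset.univ := fun h => by
      have h3 := LAY_.in_notMem hcl v u hu.2 (t + 1) (by omega)
      apply h3
      rw [cb, h]
      exact Finset.mem_univ _
    have h3 := gro (cb A v t) ⟨v, LAY_.mem_cb_self v t⟩ h2
    have h4 : (cb A v (t + 1)).card = (outN A (cb A v t)).card := by rw [cb]
    rw [h4]
    nlinarith

lemma disj (hcl : NoCl A m) {v z : V} {t s : ℕ} (h : t + s ≤ m) (h1 : z ∈ cb A v t)
    (h2 : z ∈ cb (fun a b => A b a) v s) : z = v := by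
  obtain ⟨p, f1, f2⟩ := LAY_.cb_walk v t z h1
  obtain ⟨q, f3, f4⟩ := LAY_.cb_walk (A := fun a b => A b a) v s z h2
  have f5 := CUT_.wk_flip (A := A) q v z f4
  have f6 := f2.trans f5
  rcases Nat.eq_zero_or_pos (p + q) with h | h
  · have hp : p = 0 := by omega
    rw [hp] at f2
    exact (show v = z from f2).symm
  · exact absurd f6 (hcl (p + q) h (by omega) v)

lemma inter_card (hcl : NoCl A m) (v : V) {t s : ℕ} (h : t + s ≤ m) :
    (cb A v t ∩ cb (fun a b => A b a) v s).card ≤ 1 := by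
  have : cb A v t ∩ cb (fun a b => A b a) v s ⊆ {v} := fun z hz => by
    rw [Finset.mem_inter] at hz
    rw [Finset.mem_singleton]
    exact disj hcl h hz.1 hz.2
  exact (Finset.card_le_card this).trans (by rw [Finset.card_singleton])

lemma up_gen (hk : 1 ≤ k) (hout : ∀ v, (Finset.univ.filter fun u => A v u).card = k) (hcl : NoCl A m)
    (gri : ∀ F : Finset V, F.Nonempty → outN (fun a b => A b a) F ≠ Finset.univ →
      F.card + k ≤ (outN (fun a b => A b a) F).card + e) (hn : Fintype.card V ≤ m * k)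
    (v : V) (t : ℕ) (ht1 : 1 ≤ t) (ht : t ≤ m) : (cb A v t).card ≤ t * k + (m - t) * e := by
  have h1 := low_gen (A := fun a b => A b a) (e := e) hk hout (CUT_.nocl_flip hcl) gri v (m - t) (by omega)
  have h2 := inter_card hcl v (t := t) (s := m - t) (by omega)
  have h3 := Finset.card_union_add_card_inter (cb A v t) (cb (fun a b => A b a) v (m - t))
  have h4 : (cb A v t ∪ cb (fun a b => A b a) v (m - t)).card ≤ Fintype.card V := Finset.card_le_univ _
  have h5 : m * k = t * k + (m - t) * k := by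
    rw [← Nat.add_mul]
    congr 1
    omega
  omega

lemma me_le (h : Lim A k m e δ c i₁ Q x) : m * e ≤ c * k := (Nat.mul_le_mul_left m h.he).trans h.hδ

lemma ck_pos (h : Lim A k m e δ c i₁ Q x) : 1 ≤ c * k := Nat.mul_pos h.hc h.hk

lemma low (h : Lim A k m e δ c i₁ Q x) (v : V) (t : ℕ) (ht : t + 1 ≤ m) :
    t * k + 1 ≤ (cb A v t).card + c * k := by
  have h1 := low_gen h.hk h.hin h.hcl h.gro v t ht
  have h2 := me_le h
  have h3 : t * e ≤ m * e := Nat.mul_le_mul_right e (by omega)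
  omega

lemma low' (h : Lim A k m e δ c i₁ Q x) (v : V) (t : ℕ) (ht : t + 1 ≤ m) :
    t * k + 1 ≤ (cb (fun a b => A b a) v t).card + c * k := by
  have h1 := low_gen (A := fun a b => A b a) h.hk h.hout (CUT_.nocl_flip h.hcl) h.gri v t ht
  have h2 := me_le h
  have h3 : t * e ≤ m * e := Nat.mul_le_mul_right e (by omega)
  omega

lemma up (h : Lim A k m e δ c i₁ Q x) (v : V) (t : ℕ) (ht : t ≤ m) :
    (cb A v t).card ≤ (t + c) * k := by
  have h2 := me_le h
  have h0 := ck_pos h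
  rcases Nat.eq_zero_or_pos t with h1 | h1
  · subst h1
    have : (cb A v 0).card = 1 := by
      rw [cb]
      exact Finset.card_singleton v
    rw [this, Nat.zero_add]
    exact h0
  · have h3 := up_gen h.hk h.hout h.hcl h.gri h.hn v t h1 ht
    have h4 : (m - t) * e ≤ m * e := Nat.mul_le_mul_right e (by omega)
    rw [Nat.add_mul]
    omega

lemma up' (h : Lim A k m e δ c i₁ Q x) (v : V) (t : ℕ) (ht : t ≤ m) :
    (cb (fun a b => A b a) v t).card ≤ (t + c) * k := by
  have h2 := me_le h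
  have h0 := ck_pos h
  rcases Nat.eq_zero_or_pos t with h1 | h1
  · subst h1
    have : (cb (fun a b => A b a) v 0).card = 1 := by
      rw [cb]
      exact Finset.card_singleton v
    rw [this, Nat.zero_add]
    exact h0
  · have h3 := up_gen (A := fun a b => A b a) h.hk h.hin (CUT_.nocl_flip h.hcl) h.gro h.hn v t h1 ht
    have h4 : (m - t) * e ≤ m * e := Nat.mul_le_mul_right e (by omega)
    rw [Nat.add_mul]
    omega

lemma δ_le (h : Lim A k m e δ c i₁ Q x) : δ ≤ k := by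
  rw [← h.hδx, ← h.hout x]
  exact Finset.card_le_card (Finset.filter_subset_filter _ (Finset.subset_univ _))

lemma Sx_card (h : Lim A k m e δ c i₁ Q x) : (Sx A Q x).card = k - δ := by
  unfold Sx
  rw [Finset.card_sdiff, h.hout x]
  congr 1
  rw [← h.hδx]
  congr 1
  ext v
  simp only [Finset.mem_inter, Finset.mem_filter, Finset.mem_univ, true_and]

lemma Q_sub_outN : Q ⊆ outN A Q := fun v hv => FIN_.mem_outN.2 (Or.inl hv)

lemma Sx_sub (h : Lim A k m e δ c i₁ Q x) : Sx A Q x ⊆ outN A Q \ Q := fun v hv => by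
  unfold Sx at hv
  rw [Finset.mem_sdiff, Finset.mem_filter] at hv
  rw [Finset.mem_sdiff]
  exact ⟨FIN_.mem_outN.2 (Or.inr ⟨x, h.hx, hv.1.2⟩), hv.2⟩

lemma S'_card (h : Lim A k m e δ c i₁ Q x) : ((outN A Q \ Q) \ Sx A Q x).card = δ - e := by
  have h1 : (outN A Q \ Q).card + Q.card = (outN A Q).card := Finset.card_sdiff_add_card_eq_card Q_sub_outN
  have h2 := Finset.card_sdiff_add_card_eq_card (Sx_sub h)
  have h3 := Sx_card h
  have h4 := h.hQ
  have h5 := δ_le h
  have h6 := h.he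
  omega

lemma Sx_cb (h : Lim A k m e δ c i₁ Q x) (i : ℕ) : Sx A Q x ⊆ cb A x (i + 1) := fun v hv => by
  unfold Sx at hv
  rw [Finset.mem_sdiff, Finset.mem_filter] at hv
  rw [cb, FIN_.mem_outN]
  exact Or.inr ⟨x, LAY_.mem_cb_self x i, hv.1.2⟩

lemma inE (h : Lim A k m e δ c i₁ Q x) (i : ℕ) (hi : i < i₁) :
    (cb A x i).card + (k - δ) + (cb A x (i + 1) ∩ Q).card ≤ (cb A x (i + 1)).card + (cb A x i ∩ Q).card := by
  have h1 := h.gro (cb A x i ∪ Q) ⟨x, Finset.mem_union_right _ h.hx⟩ (h.hi i hi)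
  rw [outN_union] at h1
  have h2 : outN A (cb A x i) = cb A x (i + 1) := by rw [cb]
  rw [h2] at h1
  have h3 := Finset.card_union_add_card_inter (cb A x i) Q
  have h4 := Finset.card_union_add_card_inter (cb A x (i + 1)) (outN A Q)
  have h5 := h.hQ
  have h6 : (cb A x (i + 1) ∩ Q).card + (Sx A Q x).card ≤ (cb A x (i + 1) ∩ outN A Q).card := by
    rw [← Finset.card_union_of_disjoint]
    · apply Finset.card_le_card
      intro v hv
      rw [Finset.mem_inter]
      rcases Finset.mem_union.1 hv with hv | hv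
      · rw [Finset.mem_inter] at hv
        exact ⟨hv.1, Q_sub_outN hv.2⟩
      · exact ⟨Sx_cb h i hv, (Finset.mem_sdiff.1 (Sx_sub h hv)).1⟩
    · rw [Finset.disjoint_left]
      intro v hv hv'
      exact (Finset.mem_sdiff.1 (Sx_sub h hv')).2 (Finset.mem_inter.1 hv).2
  have h7 := Sx_card h
  omega

lemma inS (h : Lim A k m e δ c i₁ Q x) (i : ℕ) (hi : i ≤ i₁) :
    i * (k - δ) + (cb A x i ∩ Q).card ≤ (cb A x i).card := by
  induction i with
  | zero =>
    rw [Nat.zero_mul, Nat.zero_add]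
    exact Finset.card_le_card Finset.inter_subset_left
  | succ i ih =>
    have h1 := ih (by omega)
    have h2 := inE h i (by omega)
    rw [Nat.add_mul, Nat.one_mul]
    omega

lemma inQ (h : Lim A k m e δ c i₁ Q x) (i : ℕ) (hi : i ≤ i₁) : (cb A x i ∩ Q).card ≤ c * k := by
  have h0 := ck_pos h
  rcases Nat.eq_zero_or_pos i with h1 | h1
  · subst h1
    have h2 : (cb A x 0 ∩ Q).card ≤ (cb A x 0).card := Finset.card_le_card Finset.inter_subset_left
    have h3 : (cb A x 0).card = 1 := by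
      rw [cb]
      exact Finset.card_singleton x
    omega
  · have him : i ≤ m := hi.trans h.hi₁'
    have h2 := inS h i hi
    have h3 := up_gen h.hk h.hout h.hcl h.gri h.hn x i h1 him
    have h4 := δ_le h
    have h5 : (m - i) * e ≤ (m - i) * δ := Nat.mul_le_mul_left _ h.he
    have h6 : m * δ = (m - i) * δ + i * δ := by
      rw [← Nat.add_mul]
      congr 1
      omega
    have h7 := h.hδ
    have h8 : i * k = i * (k - δ) + i * δ := by
      rw [← Nat.mul_add]
      congr 1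
      omega
    omega

lemma cb_trans {u v w : V} {i j : ℕ} (h1 : v ∈ cb A u i) (h2 : w ∈ cb A v j) : w ∈ cb A u (i + j) := by
  rw [SD_.mem_cb] at h1 h2 ⊢
  obtain ⟨p, f1, f2⟩ := h1
  obtain ⟨q, f3, f4⟩ := h2
  exact ⟨p + q, by omega, f2.trans f4⟩

/-- `u ∈` in-ball of `w`, `v ∈` out-ball of `w`, so `u ∈` in-ball of `v` -/
lemma cb_back {u v w : V} {i j : ℕ} (h1 : u ∈ cb (fun a b => A b a) w i) (h2 : v ∈ cb A w j) :
    u ∈ cb (fun a b => A b a) v (i + j) := by
  have h3 : w ∈ cb A u i := (SD_.cb_flip (A := A) u w i).2 h1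
  have h4 := cb_trans h3 h2
  exact (SD_.cb_flip (A := A) u v (i + j)).1 h4

lemma F4 (h : Lim A k m e δ c i₁ Q x) (T t : ℕ) (z : V) (hz : Near A T x z) (htT : t + T ≤ m) (h1t : 1 ≤ t)
    (ht : t + 1 ≤ m) : (cb A z t \ cb A x t).card ≤ (T + 4 * c) * k := by
  obtain ⟨w, hwx, hwz⟩ := hz
  obtain ⟨R, hR⟩ : ∃ R, R = cb (fun a b => A b a) x (m - t) := ⟨_, rfl⟩
  obtain ⟨Rz, hRz⟩ : ∃ R, R = cb (fun a b => A b a) z (m - t) := ⟨_, rfl⟩
  obtain ⟨Rw, hRw⟩ : ∃ R, R = cb (fun a b => A b a) w (m - t - T) := ⟨_, rfl⟩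
  have hRwR : Rw ⊆ R := fun u hu => by
    rw [hRw] at hu
    have := cb_back hu hwx
    rw [show m - t - T + T = m - t by omega] at this
    rw [hR]
    exact this
  have hRwRz : Rw ⊆ Rz := fun u hu => by
    rw [hRw] at hu
    have := cb_back hu hwz
    rw [show m - t - T + T = m - t by omega] at this
    rw [hRz]
    exact this
  have h1 : cb A z t \ cb A x t ⊆ (Finset.univ \ (cb A x t ∪ R)) ∪ ({z} ∪ (R \ Rw)) := fun u hu => by
    rw [Finset.mem_sdiff] at hu
    rw [Finset.mem_union, Finset.mem_union, Finset.mem_sdiff, Finset.mem_union, Finset.mem_singleton,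
      Finset.mem_sdiff]
    by_cases huR : u ∈ R
    · by_cases huw : u ∈ Rw
      · right; left
        have h2 := hRwRz huw
        rw [hRz] at h2
        exact disj h.hcl (by omega) hu.1 h2
      · right; right
        exact ⟨huR, huw⟩
    · left
      exact ⟨Finset.mem_univ _, fun h' => h'.elim hu.2 huR⟩
  have h2 := (Finset.card_le_card h1).trans (Finset.card_union_le _ _)
  have h3 : ({z} ∪ (R \ Rw)).card ≤ 1 + (R \ Rw).card :=
    (Finset.card_union_le _ _).trans (by rw [Finset.card_singleton])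
  have h4 : (R \ Rw).card + Rw.card = R.card := Finset.card_sdiff_add_card_eq_card hRwR
  have h5 : (Finset.univ \ (cb A x t ∪ R)).card + (cb A x t ∪ R).card = Fintype.card V :=
    Finset.card_sdiff_add_card_eq_card (Finset.subset_univ _)
  have h6 := Finset.card_union_add_card_inter (cb A x t) R
  have h7 : (cb A x t ∩ R).card ≤ 1 := by
    rw [hR]
    exact inter_card h.hcl x (by omega)
  have h8 := low h x t ht
  have h9 : (m - t) * k + 1 ≤ R.card + c * k := by
    rw [hR]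
    exact low' h x (m - t) (by omega)
  have h10 : R.card ≤ (m - t + c) * k := by
    rw [hR]
    exact up' h x (m - t) (by omega)
  have h11 : (m - t - T) * k + 1 ≤ Rw.card + c * k := by
    rw [hRw]
    exact low' h w (m - t - T) (by omega)
  have h12 := h.hn
  have h13 : m * k = t * k + (m - t) * k := by
    rw [← Nat.add_mul]
    congr 1
    omega
  have h14 : (m - t) * k = (m - t - T) * k + T * k := by
    rw [← Nat.add_mul]
    congr 1
    omega
  have h15 : (m - t + c) * k = (m - t) * k + c * k := Nat.add_mul _ _ _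
  have h16 : (T + 4 * c) * k = T * k + 4 * (c * k) := by ring
  omega

lemma F5 (h : Lim A k m e δ c i₁ Q x) (T : ℕ) (z : V) (t : ℕ) (hz : Near A T x z) (htT : t + T ≤ m)
    (ht : t ≤ i₁) : (cb A z t ∩ Q).card ≤ (T + 5 * c) * k := by
  have h0 := ck_pos h
  have h16 : (T + 5 * c) * k = T * k + 5 * (c * k) := by ring
  rcases Nat.eq_zero_or_pos t with h1 | h1
  · subst h1
    have h2 : (cb A z 0 ∩ Q).card ≤ (cb A z 0).card := Finset.card_le_card Finset.inter_subset_left
    have h3 : (cb A z 0).card = 1 := by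
      rw [cb]
      exact Finset.card_singleton z
    omega
  rcases Nat.eq_zero_or_pos T with h2 | h2
  · subst h2
    obtain ⟨w, h3, h4⟩ := hz
    rw [cb, Finset.mem_singleton] at h3 h4
    rw [h4, ← h3]
    have h5 := inQ h t ht
    omega
  · have h3 := F4 h T t z hz htT h1 (by omega)
    have h4 := inQ h t ht
    have h5 : cb A z t ∩ Q ⊆ (cb A z t \ cb A x t) ∪ (cb A x t ∩ Q) := fun u hu => by
      rw [Finset.mem_inter] at hu
      rw [Finset.mem_union, Finset.mem_sdiff, Finset.mem_inter]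
      by_cases h6 : u ∈ cb A x t
      · exact Or.inr ⟨h6, hu.2⟩
      · exact Or.inl ⟨hu.1, h6⟩
    have h6 := (Finset.card_le_card h5).trans (Finset.card_union_le _ _)
    have h7 : (T + 4 * c) * k = T * k + 4 * (c * k) := by ring
    omega

lemma F6 (h : Lim A k m e δ c i₁ Q x) (z : V) (hz : z ∈ Q) (t : ℕ) :
    (cb A z t ∩ Q).card + (k - δ) ≤ (cb A z (t + 1) ∩ Q).card + (Sx A Q x ∩ cb A z (t + 1)).card := by
  have h0 := Sx_card h
  have hsub : cb A z t ⊆ cb A z (t + 1) := LAY_.cb_sub z t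
  have hN : outN A (cb A z t ∩ Q) ⊆ cb A z (t + 1) := by
    have : cb A z (t + 1) = outN A (cb A z t) := by rw [cb]
    rw [this]
    exact outN_mono Finset.inter_subset_left
  by_cases hu : outN A (cb A z t ∩ Q) = Finset.univ
  · have h1 : Sx A Q x ∩ cb A z (t + 1) = Sx A Q x := by
      rw [Finset.inter_eq_left]
      intro v _
      exact hN (hu ▸ Finset.mem_univ v)
    rw [h1, h0]
    have h2 := Finset.card_le_card (Finset.inter_subset_inter_right hsub (u := Q))
    omega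
  · have h1 := h.gro (cb A z t ∩ Q) ⟨z, Finset.mem_inter.2 ⟨LAY_.mem_cb_self z t, hz⟩⟩ hu
    have h2 : outN A (cb A z t ∩ Q) ⊆ (cb A z (t + 1) ∩ Q) ∪ ((Sx A Q x ∩ cb A z (t + 1)) ∪
        ((outN A Q \ Q) \ Sx A Q x)) := fun v hv => by
      have h3 := hN hv
      have h4 : v ∈ outN A Q := outN_mono Finset.inter_subset_right hv
      rw [Finset.mem_union, Finset.mem_union, Finset.mem_inter, Finset.mem_inter, Finset.mem_sdiff,
        Finset.mem_sdiff]
      by_cases h5 : v ∈ Q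
      · exact Or.inl ⟨h3, h5⟩
      · by_cases h6 : v ∈ Sx A Q x
        · exact Or.inr (Or.inl ⟨h6, h3⟩)
        · exact Or.inr (Or.inr ⟨⟨h4, h5⟩, h6⟩)
    have h3 := (Finset.card_le_card h2).trans (Finset.card_union_le _ _)
    have h4 := Finset.card_union_le (Sx A Q x ∩ cb A z (t + 1)) ((outN A Q \ Q) \ Sx A Q x)
    have h5 := S'_card h
    have h6 := h.he
    have h7 := δ_le h
    omega

end L2_

theorem specL2 : SpecL2 := fun _ _ _ _ _ _ _ _ _ _ _ h =>
  ⟨L2_.low h, L2_.low' h, L2_.up h, L2_.up' h, L2_.Sx_card h, L2_.S'_card h, L2_.inE h, L2_.inS h,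
    fun T z t h1 h2 h3 => L2_.F5 h T z t h1 h2 h3, fun z hz t => L2_.F6 h z hz t⟩

end Pool.Agent.Lib.MP_83608f_co.LIM
end
end

section
/-! MP_83608f_co, part LIM, module L3 (helper50): the gap lemma (section 3 of /team-store/MP_83608f_h16_LIM.md).

A vertex of the fragment `Q` which has a common ancestor with `x` at distance at most `T` has one at distance at most
`6c+2` or reaches `x` in few steps. -/
set_option autoImplicit false

open Classical

noncomputable section

namespace Pool.Agent.Lib.MP_83608f_co.LIM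

open Pool.Agent.Lib.MP_83608f_co.CN
open LAY_ (cb mem_cb_self)
open SD_ (mem_cb cb_flip cb_mono)

namespace L3_

variable {V : Type} [Fintype V] {A : V → V → Prop} {k m e δ c i₁ : ℕ} {Q : Finset V} {x : V}

lemma cb_trans {x y z : V} {i j : ℕ} (h1 : y ∈ cb A x i) (h2 : z ∈ cb A y j) : z ∈ cb A x (i + j) := by
  rw [mem_cb] at *
  obtain ⟨a, h3, h4⟩ := h1
  obtain ⟨b, h5, h6⟩ := h2
  exact ⟨a + b, by omega, h4.trans h6⟩

lemma cb_arc {a b : V} (h : A a b) : b ∈ cb A a 1 :=
  FIN_.mem_outN.2 (Or.inr ⟨a, Finset.mem_singleton_self _, h⟩)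

lemma near_mono {x z : V} {T T' : ℕ} (hT : T ≤ T') (h : Near A T x z) : Near A T' x z := by
  obtain ⟨w, h1, h2⟩ := h
  exact ⟨w, cb_mono w hT h1, cb_mono w hT h2⟩

/-- a descendant of a near vertex is near -/
lemma near_desc {x z a : V} {T t : ℕ} (h : Near A T x z) (ha : a ∈ cb A z t) : Near A (T + t) x a := by
  obtain ⟨w, h1, h2⟩ := h
  exact ⟨w, cb_mono w (by omega) h1, cb_trans h2 ha⟩

/-- double counting: a vertex of `S` which is reached by three quarters of `F` -/
lemma dc {F S : Finset V} {r : ℕ} (hS : S.Nonempty) (h : ∀ a ∈ F, 3 * S.card ≤ 4 * (S ∩ cb A a r).card) :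
    ∃ s ∈ S, 3 * F.card ≤ 4 * (F.filter fun a => s ∈ cb A a r).card := by
  classical
  by_contra hcon
  push Not at hcon
  have h1 : ∑ a ∈ F, 4 * (S ∩ cb A a r).card = ∑ s ∈ S, 4 * (F.filter fun a => s ∈ cb A a r).card := by
    rw [← Finset.mul_sum, ← Finset.mul_sum]
    congr 1
    simp only [← Finset.filter_mem_eq_inter, Finset.card_filter]
    rw [Finset.sum_comm]
  have h2 : ∑ a ∈ F, 3 * S.card ≤ ∑ a ∈ F, 4 * (S ∩ cb A a r).card := Finset.sum_le_sum h
  have h3 : ∑ s ∈ S, 4 * (F.filter fun a => s ∈ cb A a r).card < ∑ s ∈ S, 3 * F.card :=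
    Finset.sum_lt_sum_of_nonempty hS hcon
  rw [h1, Finset.sum_const, smul_eq_mul] at h2
  rw [Finset.sum_const, smul_eq_mul] at h3
  have h4 : F.card * (3 * S.card) = S.card * (3 * F.card) := by ring
  omega

/-- (F6), summed -/
lemma f6 (h10 : ∀ z ∈ Q, ∀ t, (cb A z t ∩ Q).card + (k - δ) ≤ (cb A z (t + 1) ∩ Q).card + (Sx A Q x ∩ cb A z (t + 1)).card)
    {z : V} (hz : z ∈ Q) (r t : ℕ) (htr : t ≤ r) :
    t * (k - δ) + 1 ≤ (cb A z t ∩ Q).card + t * (Sx A Q x ∩ cb A z r).card := by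
  induction t with
  | zero =>
    have h0 : z ∈ cb A z 0 ∩ Q := Finset.mem_inter.2 ⟨mem_cb_self z 0, hz⟩
    have h0' := Finset.card_pos.2 ⟨z, h0⟩
    omega
  | succ t ih =>
    have h1 := ih (by omega)
    have h2 := h10 z hz t
    have h3 : (Sx A Q x ∩ cb A z (t + 1)).card ≤ (Sx A Q x ∩ cb A z r).card :=
      Finset.card_le_card (Finset.inter_subset_inter_left (cb_mono z htr))
    have h4 : (t + 1) * (k - δ) = t * (k - δ) + (k - δ) := by ring
    have h5 : (t + 1) * (Sx A Q x ∩ cb A z r).card = t * (Sx A Q x ∩ cb A z r).card + (Sx A Q x ∩ cb A z r).card := by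
      ring
    omega

/-- a near vertex reaches three quarters of `S_x` -/
lemma tq (hL : Lim A k m e δ c i₁ Q x) (h5 : (Sx A Q x).card = k - δ) (hδ5 : 5 * δ ≤ k)
    (h9 : ∀ T z t, Near A T x z → t + T ≤ m → t ≤ i₁ → (cb A z t ∩ Q).card ≤ (T + 5 * c) * k)
    (h10 : ∀ z ∈ Q, ∀ t, (cb A z t ∩ Q).card + (k - δ) ≤ (cb A z (t + 1) ∩ Q).card + (Sx A Q x ∩ cb A z (t + 1)).card)
    {z : V} (hz : z ∈ Q) {T r : ℕ} (hT : Near A T x z) (hr : r = 5 * (T + 5 * c)) (hrT : r + T ≤ m) (hri : r ≤ i₁) :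
    3 * (Sx A Q x).card ≤ 4 * (Sx A Q x ∩ cb A z r).card := by
  have h1 := f6 h10 hz r r le_rfl
  have h2 := h9 T z r hT hrT hri
  have hc := hL.hc
  set s := (Sx A Q x ∩ cb A z r).card with hs
  set M := T + 5 * c with hM
  have h3 : r * (k - δ) ≤ M * k + r * s := by omega
  have h4 : M * (5 * (k - δ)) ≤ M * (k + 5 * s) := by
    have e1 : M * (5 * (k - δ)) = r * (k - δ) := by rw [hr]; ring
    have e2 : M * (k + 5 * s) = M * k + r * s := by rw [hr]; ring
    omega
  have h6 : 5 * (k - δ) ≤ k + 5 * s := Nat.le_of_mul_le_mul_left h4 (by omega)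
  omega

/-- (F8) -/
lemma f8 (h2 : ∀ v t, t + 1 ≤ m → t * k + 1 ≤ (cb (fun a b => A b a) v t).card + c * k)
    (h4 : ∀ v t, t ≤ m → (cb (fun a b => A b a) v t).card ≤ (t + c) * k)
    {z s y : V} {p q t : ℕ} (hz : s ∈ cb A z p) (hy : s ∈ cb A y q) (ht : t = p + q + 3 * c) (htm : t + 1 ≤ m) :
    ∃ w, z ∈ cb A w (t - p) ∧ y ∈ cb A w (t - q) := by
  classical
  by_contra hcon
  push Not at hcon
  have hd : Disjoint (cb (fun a b => A b a) z (t - p)) (cb (fun a b => A b a) y (t - q)) := by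
    rw [Finset.disjoint_left]
    intro w h h'
    rw [← cb_flip] at h h'
    exact hcon w h h'
  have hsub : cb (fun a b => A b a) z (t - p) ∪ cb (fun a b => A b a) y (t - q) ⊆ cb (fun a b => A b a) s t := by
    intro w hw
    rw [Finset.mem_union] at hw
    rw [← cb_flip]
    rcases hw with h | h
    · rw [← cb_flip] at h
      have := cb_trans h hz
      rwa [show t - p + p = t by omega] at this
    · rw [← cb_flip] at h
      have := cb_trans h hy
      rwa [show t - q + q = t by omega] at this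
  have e1 := Finset.card_le_card hsub
  rw [Finset.card_union_of_disjoint hd] at e1
  have e2 := h2 z (t - p) (by omega)
  have e3 := h2 y (t - q) (by omega)
  have e4 := h4 s t (by omega)
  have e5 : (t - p) * k + (t - q) * k = (t + 3 * c) * k := by
    rw [← Nat.add_mul]
    congr 1
    omega
  have e6 : (t + 3 * c) * k = t * k + 3 * (c * k) := by ring
  have e7 : (t + c) * k = t * k + c * k := by ring
  omega

/-- (F7) and (F8): the gap lemma -/
lemma gap (hL : Lim A k m e δ c i₁ Q x) (h5 : (Sx A Q x).card = k - δ) (hδ1 : 1000 * δ ≤ k)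
    (h2 : ∀ v t, t + 1 ≤ m → t * k + 1 ≤ (cb (fun a b => A b a) v t).card + c * k)
    (h4 : ∀ v t, t ≤ m → (cb (fun a b => A b a) v t).card ≤ (t + c) * k)
    (h9 : ∀ T z t, Near A T x z → t + T ≤ m → t ≤ i₁ → (cb A z t ∩ Q).card ≤ (T + 5 * c) * k)
    (h10 : ∀ z ∈ Q, ∀ t, (cb A z t ∩ Q).card + (k - δ) ≤ (cb A z (t + 1) ∩ Q).card + (Sx A Q x ∩ cb A z (t + 1)).card)
    {z : V} (hz : z ∈ Q) (hT : Near A (9 * c + 3) x z) :
    Near A (6 * c + 2) x z ∨ x ∈ cb A z (238 * c + 51) := by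
  classical
  have hk := hL.hk
  have hc := hL.hc
  have hm := hL.hm
  have hi := hL.hi₁
  by_cases hem : (Sx A Q x ∩ cb A z (3 * c + 2)).Nonempty
  · left
    obtain ⟨s, hs⟩ := hem
    rw [Finset.mem_inter, Sx, Finset.mem_sdiff, Finset.mem_filter] at hs
    obtain ⟨w, e1, e2⟩ := f8 (t := 3 * c + 2 + 1 + 3 * c) h2 h4 hs.2 (cb_arc hs.1.1.2) rfl (by omega)
    exact ⟨w, cb_mono w (by omega) e2, cb_mono w (by omega) e1⟩
  · right
    rw [Finset.not_nonempty_iff_eq_empty] at hem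
    have e1 := f6 h10 hz (3 * c + 2) (3 * c + 2) le_rfl
    rw [hem, Finset.card_empty, Nat.mul_zero, Nat.add_zero] at e1
    set F := cb A z (3 * c + 2) ∩ Q with hF
    set r := 85 * c + 25 with hr
    have hS : (Sx A Q x).Nonempty := by
      rw [← Finset.card_pos, h5]
      omega
    obtain ⟨s, hs, e2⟩ := dc (A := A) (F := F) (r := r) hS (by
      intro a ha
      rw [hF, Finset.mem_inter] at ha
      exact tq hL h5 (by omega) h9 h10 ha.2 (near_desc hT ha.1) (by omega) (by omega) (by omega))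
    rw [Sx, Finset.mem_sdiff, Finset.mem_filter] at hs
    -- the in-ball of `x` of radius `r - 1` is in the in-ball of `s` of radius `r`
    set X := cb (fun a b => A b a) x (r - 1) with hX
    set S := cb (fun a b => A b a) s r with hS'
    have hXS : X ⊆ S := by
      intro w hw
      rw [hX, ← cb_flip] at hw
      rw [hS', ← cb_flip]
      have := cb_trans hw (cb_arc hs.1.2)
      rwa [show r - 1 + 1 = r by omega] at this
    have e3 : (S \ X).card + X.card = S.card := Finset.card_sdiff_add_card_eq_card hXS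
    have e4 := h2 x (r - 1) (by omega)
    have e5 := h4 s r (by omega)
    rw [← hX] at e4
    rw [← hS'] at e5
    have e6 : (S \ X).card < (1 + 2 * c) * k := by
      have e7 : (r + c) * k = (r - 1) * k + k + c * k := by
        rw [show (r + c) = (r - 1) + 1 + c by omega]
        ring
      have e8 : (1 + 2 * c) * k = k + 2 * (c * k) := by ring
      omega
    have e9 : ∃ a ∈ F, a ∈ X := by
      by_contra hcon
      push Not at hcon
      have f1 : (F.filter fun a => s ∈ cb A a r) ⊆ S \ X := by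
        intro a ha
        rw [Finset.mem_filter] at ha
        rw [Finset.mem_sdiff, hS', ← cb_flip]
        exact ⟨ha.2, hcon a ha.1⟩
      have f2 := Finset.card_le_card f1
      have f3 : (3 * c + 2) * k = (3 * c + 2) * (k - δ) + (3 * c + 2) * δ := by
        rw [← Nat.mul_add]
        congr 1
        omega
      have f4 : 1000 * ((3 * c + 2) * δ) ≤ (3 * c + 2) * k := by
        calc 1000 * ((3 * c + 2) * δ) = (3 * c + 2) * (1000 * δ) := by ring
          _ ≤ (3 * c + 2) * k := Nat.mul_le_mul_left _ hδ1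
      have f5 : (3 * c + 2) * k = 3 * (c * k) + 2 * k := by ring
      have f6 : (1 + 2 * c) * k = k + 2 * (c * k) := by ring
      have f7 : k ≤ c * k := Nat.le_mul_of_pos_left k (by omega)
      omega
    obtain ⟨a, ha, haX⟩ := e9
    rw [hX, ← cb_flip] at haX
    rw [hF, Finset.mem_inter] at ha
    exact cb_mono z (by omega) (cb_trans ha.1 haX)

end L3_

theorem specL3 (hL2 : SpecL2) : SpecL3 := by
  intro V _ A k m e δ c i₁ Q x hL
  obtain ⟨h1, h2, h3, h4, h5, h6, h7, h8, h9, h10⟩ := hL2 V A k m e δ c i₁ Q x hL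
  have hk := hL.hk
  have hc := hL.hc
  have hm := hL.hm
  have hi := hL.hi₁
  have hδ1 : 1000 * δ ≤ k := by
    have e1 := hL.hδ
    have e2 : (1000 * c) * δ ≤ m * δ := Nat.mul_le_mul_right _ (by omega)
    have e3 : c * (1000 * δ) ≤ c * k := by
      calc c * (1000 * δ) = (1000 * c) * δ := by ring
        _ ≤ c * k := by omega
    exact Nat.le_of_mul_le_mul_left e3 (by omega)
  refine ⟨fun z hz hT => L3_.gap hL h5 hδ1 h2 h4 h9 h10 hz hT, ?_, ?_, ?_, ?_⟩
  · intro a s hs has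
    rw [Sx, Finset.mem_sdiff, Finset.mem_filter] at hs
    obtain ⟨w, e1, e2⟩ := L3_.f8 (t := 1 + 1 + 3 * c) h2 h4 (L3_.cb_arc has) (L3_.cb_arc hs.1.2) rfl (by omega)
    exact ⟨w, cb_mono w (by omega) e2, cb_mono w (by omega) e1⟩
  · rintro a z haz ⟨w, hw1, hw2⟩
    obtain ⟨w', e1, e2⟩ := L3_.f8 (t := 1 + (6 * c + 2) + 3 * c) h2 h4 (L3_.cb_arc haz) hw2 rfl (by omega)
    refine ⟨w', ?_, cb_mono w' (by omega) e1⟩
    exact cb_mono w' (by omega) (L3_.cb_trans e2 hw1)
  · rintro a z haz hT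
    exact L3_.near_mono (by omega) (L3_.near_desc hT (L3_.cb_arc haz))
  · have hS : (Sx A Q x).Nonempty := by
      rw [← Finset.card_pos, h5]
      omega
    obtain ⟨s, hs, e2⟩ := L3_.dc (A := A) (F := Q.filter fun z => Near A (6 * c + 2) x z) (r := 55 * c + 10) hS (by
      intro a ha
      rw [Finset.mem_filter] at ha
      exact L3_.tq hL h5 (by omega) h9 h10 ha.1 ha.2 (by omega) (by omega) (by omega))
    have e3 : ((Q.filter fun z => Near A (6 * c + 2) x z).filter fun a => s ∈ cb A a (55 * c + 10)).card ≤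
        (cb (fun a b => A b a) s (55 * c + 10)).card := by
      apply Finset.card_le_card
      intro a ha
      rw [Finset.mem_filter] at ha
      rw [← cb_flip]
      exact ha.2
    have e4 := h4 s (55 * c + 10) (by omega)
    have e5 : (55 * c + 10 + c) * k = 56 * (c * k) + 10 * k := by ring
    have e6 : (75 * c + 14) * k = 75 * (c * k) + 14 * k := by ring
    omega

end Pool.Agent.Lib.MP_83608f_co.LIM
end
end

section
/-! MP_83608f_co, part LIM, module TOP (helper32): the theorem `n ≥ (m - C/√m) k`. -/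
set_option autoImplicit false

open Classical

noncomputable section

namespace Pool.Agent.Lib.MP_83608f_co.LIM

open Pool.Agent.Lib.MP_83608f_co.CN
open LAY_ (cb)
open SD_ (rs)

theorem specA1 : SpecA1 := by
  refine ⟨6, 70, by norm_num, fun V _ A k m hk hm hcl hout hin Q hQ h2 hS => ?_⟩
  obtain ⟨x, hx, hxmin⟩ := Finset.exists_min_image Q (fun v => (Q.filter fun u => A v u).card) hQ
  have hsub : Q ⊆ outN A Q := fun u hu => Pool.Agent.Lib.MP_83608f_co.CN.FIN_.mem_outN.2 (Or.inl hu)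
  have h3 := Finset.card_sdiff_add_card_eq_card hsub
  refine ⟨x, hx, LG_.a1 hm hk hcl hout hin Q (outN A Q \ Q) hQ (by omega) h2 (fun a ha b hab => ?_) _
    (fun a ha => hxmin a ha)⟩
  by_cases hb : b ∈ Q
  · exact Or.inl hb
  · exact Or.inr (Finset.mem_sdiff.2
      ⟨Pool.Agent.Lib.MP_83608f_co.CN.FIN_.mem_outN.2 (Or.inr ⟨a, ha, hab⟩), hb⟩)

theorem specA2 : SpecA2 := by
  refine ⟨45, fun V _ A m δ Q x hcl hx hQ j hj => ?_⟩
  rcases Nat.eq_zero_or_pos δ with h0 | h0
  · rw [h0]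
    omega
  · have h := LIMA2_.ball_all (A := A) (m := m) (r := δ) h0 hcl Q hQ x hx j hj
    have h1 : ((j * δ : ℕ) : ℝ) ≤ (((cb (rs A Q) x j).card + 45 * δ : ℕ) : ℝ) := by
      push_cast
      have h2 : ((j : ℝ) - 45) * δ ≤ (cb (rs A Q) x j).card := h
      linarith
    exact_mod_cast h1

/-- the real end -/
lemma real_end {K M m k n L : ℕ} (hM : 1 ≤ M) (hk : 1 ≤ k) (hL : L = Nat.sqrt m) (hm : M * M ≤ m)
    (h : m * (L * (m * k)) ≤ m * (L * n) + K * ((L + L * L + m) * k)) :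
    ((m : ℝ) - 6 * K / √m) * k ≤ n := by
  have hLM : M ≤ L := by
    rw [hL]
    exact Nat.le_sqrt.2 hm
  have hL1 : L * L ≤ m := by
    rw [hL]
    exact Nat.sqrt_le m
  have hL2 : m < (L + 1) * (L + 1) := by
    rw [hL]
    exact Nat.lt_succ_sqrt m
  have hLL : L ≤ L * L := Nat.le_mul_of_pos_left L (by omega)
  have hm0 : 0 < m := by omega
  have h1 : (L + L * L + m) ≤ 3 * m := by omega
  have h2 : m * (L * (m * k)) ≤ m * (L * n + 3 * (K * k)) := by
    have h3 : K * ((L + L * L + m) * k) ≤ K * (3 * m * k) :=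
      Nat.mul_le_mul_left _ (Nat.mul_le_mul_right _ h1)
    have h4 : m * (L * n + 3 * (K * k)) = m * (L * n) + K * (3 * m * k) := by ring
    omega
  have h5 : L * (m * k) ≤ L * n + 3 * (K * k) := Nat.le_of_mul_le_mul_left h2 hm0
  have h6 : (L : ℝ) * (m * k) ≤ L * n + 3 * (K * k) := by exact_mod_cast h5
  have hm0' : (0 : ℝ) < m := by exact_mod_cast hm0
  have hs : 0 < √(m : ℝ) := Real.sqrt_pos.2 hm0'
  have hL0 : (0 : ℝ) < L := by exact_mod_cast (by omega : 0 < L)
  have hsL : √(m : ℝ) ≤ 2 * L := by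
    rw [Real.sqrt_le_left (by linarith)]
    have h7 : (m : ℝ) ≤ (L + 1) * (L + 1) := by exact_mod_cast hL2.le
    have h8 : (1 : ℝ) ≤ L := by exact_mod_cast (by omega : 1 ≤ L)
    nlinarith
  have hK : (0 : ℝ) ≤ K * k := by positivity
  have h9 : (m : ℝ) * k ≤ n + 3 * (K * k) / L := by
    have : (m : ℝ) * k ≤ (L * n + 3 * (K * k)) / L := by
      rw [le_div_iff₀ hL0]
      linarith
    have e : (L * (n : ℝ) + 3 * (K * k)) / L = n + 3 * (K * k) / L := by
      field_simp
    rwa [e] at this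
  have h10 : 3 * ((K : ℝ) * k) / L ≤ 6 * (K * k) / √m := by
    rw [div_le_div_iff₀ hL0 hs]
    nlinarith
  have e2 : 6 * (K : ℝ) / √m * k = 6 * (K * k) / √m := by ring
  have e3 : ((m : ℝ) - 6 * K / √m) * k = m * k - 6 * (K : ℝ) / √m * k := by ring
  rw [e3, e2]
  linarith

/-- **the theorem** -/
theorem specFIN : SpecFIN := by
  obtain ⟨K, M, h⟩ := finC specA1 specA2 (specLP specL2 (specL3 specL2))
  refine ⟨6 * K + (M + 1 : ℝ) ^ 3, fun V _ _ A k m hk hm hcl hout hin => ?_⟩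
  have hm0 : (0 : ℝ) < m := by exact_mod_cast hm
  have hs : 0 < √(m : ℝ) := Real.sqrt_pos.2 hm0
  have hk0 : (0 : ℝ) ≤ k := Nat.cast_nonneg k
  have hn0 : (0 : ℝ) ≤ Fintype.card V := Nat.cast_nonneg _
  rcases Nat.lt_or_ge m ((M + 1) * (M + 1)) with hlt | hge
  · -- small `m`
    have h1 : (m : ℝ) ≤ (M + 1) * (M + 1) := by exact_mod_cast hlt.le
    have hM0 : (0 : ℝ) ≤ M := Nat.cast_nonneg M
    have h2 : √(m : ℝ) ≤ M + 1 := by
      rw [Real.sqrt_le_left (by linarith)]
      nlinarith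
    have h3 : (m : ℝ) ≤ (6 * K + (M + 1 : ℝ) ^ 3) / √m := by
      rw [le_div_iff₀ hs]
      have h4 : (m : ℝ) * √m ≤ ((M + 1) * (M + 1)) * (M + 1) :=
        mul_le_mul h1 h2 hs.le (by positivity)
      have h5 : ((M : ℝ) + 1) * (M + 1) * (M + 1) = (M + 1) ^ 3 := by ring
      have h6 : (0 : ℝ) ≤ K := Nat.cast_nonneg K
      linarith
    have h4 : ((m : ℝ) - (6 * K + (M + 1 : ℝ) ^ 3) / √m) * k ≤ 0 :=
      mul_nonpos_of_nonpos_of_nonneg (by linarith) hk0
    linarith
  · have hL : M + 1 ≤ Nat.sqrt m := Nat.le_sqrt.2 hge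
    have hself : Nat.sqrt m ≤ m := Nat.sqrt_le_self m
    have h1 := real_end (M := M + 1) (by omega) hk rfl hge
      (h V A k m hk (by omega) hcl hout hin (Nat.sqrt m) (by omega))
    have h2 : 6 * (K : ℝ) / √m ≤ (6 * K + (M + 1 : ℝ) ^ 3) / √m := by
      apply div_le_div_of_nonneg_right _ hs.le
      have : (0 : ℝ) ≤ (M + 1 : ℝ) ^ 3 := by positivity
      linarith
    have h3 : ((m : ℝ) - (6 * K + (M + 1 : ℝ) ^ 3) / √m) * k ≤ ((m : ℝ) - 6 * K / √m) * k :=
      mul_le_mul_of_nonneg_right (by linarith) hk0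
    exact h3.trans h1

end Pool.Agent.Lib.MP_83608f_co.LIM
end
end

section
/-! MP_83608f_co, part LIM, module FIN5 (helper56, from helper32's FIN): `n ≥ (m - C/m) k`. -/
set_option autoImplicit false

open Classical

noncomputable section

namespace Pool.Agent.Lib.MP_83608f_co.LIM

open Pool.Agent.Lib.MP_83608f_co.CN
open LAY_ (cb)
open SD_ (rs)

namespace FIN5_

/-- the constant of `core5` -/
def K1 (c c5 : ℕ) : ℕ :=
  (150 * c + 30) * (1 + c5 + (150 * c + 30) + (238 * c + 51)) + (238 * c + 51) + (2 * (150 * c + 30) + 1)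

variable {V : Type} [Fintype V] {A : V → V → Prop} {k m e c5 : ℕ}

/-- the count for one extremal set with at most half of the vertices -/
lemma core5 (hL2 : SpecL2) (hL3 : SpecL3)
    (hA2 : ∀ (V : Type) [Fintype V] (A : V → V → Prop) (m δ : ℕ) (Q : Finset V) (x : V), NoCl A m → x ∈ Q →
      (∀ v ∈ Q, δ ≤ (Q.filter fun u => A v u).card) → ∀ j ≤ m, j * δ ≤ (cb (rs A Q) x j).card + c5 * δ)
    {c : ℕ} (hc : 1 ≤ c) (hk : 1 ≤ k) (he : e ≤ k)
    (hout : ∀ v, (Finset.univ.filter fun u => A v u).card = k)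
    (hin : ∀ v, (Finset.univ.filter fun u => A u v).card = k) (hcl : NoCl A m)
    (gro : ∀ F : Finset V, F.Nonempty → outN A F ≠ Finset.univ → F.card + k ≤ (outN A F).card + e)
    (hn : Fintype.card V ≤ m * k) (hm : 1000 * c + 1000 ≤ m) (Q : Finset V) (hQne : Q.Nonempty)
    (hQ : (outN A Q).card + e = Q.card + k) (hQu : outN A Q ≠ Finset.univ) (hQ2 : 2 * Q.card ≤ Fintype.card V)
    (hA1 : ∃ v ∈ Q, m * (Q.filter fun u => A v u).card ≤ c * k) :
    ∃ (δ : ℕ) (x : V) (t : ℕ), x ∈ Q ∧ (Q.filter fun u => A x u).card = δ ∧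
      (∀ v ∈ Q, δ ≤ (Q.filter fun u => A v u).card) ∧ e ≤ δ ∧ m * δ ≤ c * k ∧
      t ≤ m ∧ m ≤ t + (2 * (150 * c + 30) + 1) + (238 * c + 51) ∧
      m * k + (cb (rs A Q) x t).card ≤ Fintype.card V + t * δ + K1 c c5 * δ := by
  have gri := FIN_.gro_flip gro
  -- the vertex of least degree
  obtain ⟨x, hx, hxmin⟩ := Finset.exists_min_image Q (fun v => (Q.filter fun u => A v u).card) hQne
  obtain ⟨δ, hδ⟩ : ∃ δ, δ = (Q.filter fun u => A x u).card := ⟨_, rfl⟩
  have hmδ : m * δ ≤ c * k := by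
    obtain ⟨v, hv, h1⟩ := hA1
    refine le_trans (Nat.mul_le_mul_left m ?_) h1
    rw [hδ]
    exact hxmin v hv
  -- `e ≤ δ`
  have heδ : e ≤ δ := by
    have h1 : (Finset.univ.filter fun u => A x u) ⊆ (Q.filter fun u => A x u) ∪ (outN A Q \ Q) := by
      intro u hu
      rw [Finset.mem_filter] at hu
      rw [Finset.mem_union, Finset.mem_filter, Finset.mem_sdiff]
      by_cases huQ : u ∈ Q
      · exact Or.inl ⟨huQ, hu.2⟩
      · exact Or.inr ⟨Pool.Agent.Lib.MP_83608f_co.CN.FIN_.mem_outN.2 (Or.inr ⟨x, hx, hu.2⟩), huQ⟩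
    have h2 := (Finset.card_le_card h1).trans (Finset.card_union_le _ _)
    rw [hout x, ← hδ] at h2
    have h3 : Q ⊆ outN A Q := fun u hu => Pool.Agent.Lib.MP_83608f_co.CN.FIN_.mem_outN.2 (Or.inl hu)
    have h4 := Finset.card_sdiff_add_card_eq_card h3
    omega
  have hme : m * e ≤ c * k := (Nat.mul_le_mul_left m heδ).trans hmδ
  obtain ⟨C', hC'⟩ : ∃ C', C' = 238 * c + 51 := ⟨_, rfl⟩
  obtain ⟨c4, hc4⟩ : ∃ c4, c4 = 150 * c + 30 := ⟨_, rfl⟩
  obtain ⟨m', hm'⟩ : ∃ m', m' = m - C' := ⟨_, rfl⟩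
  have hmm' : m' + C' = m := by omega
  -- the radius `i₁`
  have hex : ∃ i, outN A (cb A x i ∪ Q) = Finset.univ ∨ i = m' := ⟨m', Or.inr rfl⟩
  obtain ⟨i₁, hi₁⟩ : ∃ i₁, i₁ = Nat.find hex := ⟨_, rfl⟩
  have hi1s : outN A (cb A x i₁ ∪ Q) = Finset.univ ∨ i₁ = m' := by
    rw [hi₁]
    exact Nat.find_spec hex
  have hi1m : i₁ ≤ m' := by
    rw [hi₁]
    exact Nat.find_min' hex (Or.inr rfl)
  have hi1min : ∀ i < i₁, outN A (cb A x i ∪ Q) ≠ Finset.univ := fun i hi h => by
    rw [hi₁] at hi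
    exact Nat.find_min hex hi (Or.inl h)
  -- lower bound for `n`
  have hlow := FIN_.low hk he hin hcl gro x
  have hlow' := FIN_.low (A := fun a b => A b a) hk he hout (CUT_.nocl_flip hcl) gri x
  have hnlow : m * (k - e) ≤ Fintype.card V := by
    have h1 := hlow (m - 1) (by omega)
    have h2 := hlow' 1 (by omega)
    have h3 := FIN_.two hcl (m - 1) 1 (by omega) x
    obtain ⟨t, rfl⟩ : ∃ t, m = t + 1 := ⟨m - 1, by omega⟩
    rw [Nat.add_sub_cancel] at h1 h3
    have h4 : (t + 1) * (k - e) = t * (k - e) + 1 * (k - e) := by ring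
    omega
  -- `i₁` is large
  have hi1big : 450 * c + 300 ≤ i₁ := by
    rcases hi1s with h | h
    · by_contra hlt
      have h1 : (outN A Q)ᶜ ⊆ cb A x (i₁ + 1) := by
        intro z hz
        rw [Finset.mem_compl] at hz
        have h2 : z ∈ outN A (cb A x i₁ ∪ Q) := by
          rw [h]
          exact Finset.mem_univ z
        rcases Pool.Agent.Lib.MP_83608f_co.CN.FIN_.mem_outN.1 h2 with h3 | ⟨w, hw, h3⟩
        · rcases Finset.mem_union.1 h3 with h4 | h4
          · exact LAY_.cb_sub x i₁ h4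
          · exact absurd (Pool.Agent.Lib.MP_83608f_co.CN.FIN_.mem_outN.2 (Or.inl h4)) hz
        · rcases Finset.mem_union.1 hw with h4 | h4
          · exact Pool.Agent.Lib.MP_83608f_co.CN.FIN_.mem_outN.2 (Or.inr ⟨w, h4, h3⟩)
          · exact absurd (Pool.Agent.Lib.MP_83608f_co.CN.FIN_.mem_outN.2 (Or.inr ⟨w, h4, h3⟩)) hz
      have h2 := Finset.card_le_card h1
      rw [Finset.card_compl] at h2
      -- the ball is small
      have h3 := FIN_.two hcl (i₁ + 1) (m - (i₁ + 1)) (by omega) x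
      have h4 := hlow' (m - (i₁ + 1)) (by omega)
      obtain ⟨f, hf⟩ : ∃ f, k = f + e := ⟨k - e, by omega⟩
      have hf' : k - e = f := by omega
      rw [hf'] at h4 hnlow
      obtain ⟨r, hr⟩ : ∃ r, m = i₁ + 1 + r := ⟨m - (i₁ + 1), by omega⟩
      have hr' : m - (i₁ + 1) = r := by omega
      rw [hr'] at h3 h4
      -- all in terms of products
      have g1 : m * k = m * f + m * e := by rw [hf]; ring
      have g2 : m * f = (i₁ + 1) * f + r * f := by rw [hr]; ring
      have g3 : (i₁ + 1) * f ≤ (i₁ + 1) * k := Nat.mul_le_mul_left _ (by omega)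
      have g4 : (i₁ + 1) * k ≤ (450 * c + 300) * k := Nat.mul_le_mul_right _ (by omega)
      have g5 : (1000 * c + 1000) * k ≤ m * k := Nat.mul_le_mul_right _ hm
      have g6 : (1000 * c + 1000) * k = 1000 * (c * k) + 1000 * k := by ring
      have g7 : (450 * c + 300) * k = 450 * (c * k) + 300 * k := by ring
      have g8 := Finset.card_le_univ (outN A Q)
      omega
    · rw [h]
      omega
  -- the situation of the local modules
  have hLim : Lim A k m e δ c i₁ Q x :=
    { hk := hk, hc := hc, hout := hout, hin := hin, hcl := hcl, gro := gro, gri := gri, hn := hn, he := heδ,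
      hδ := hmδ, hm := hm, hx := hx, hδx := hδ.symm, hδQ := fun v hv => by rw [hδ]; exact hxmin v hv,
      hQ := hQ, hQu := hQu, hi := hi1min, hi₁ := hi1big, hi₁' := by omega }
  have hP1 := (specLP hL2 hL3 V A k m e δ c i₁ Q x hLim).1
  have hball := hA2 V A m δ Q x hcl hx (fun v hv => by rw [hδ]; exact hxmin v hv)
  have hP2 := lp5 hL2 hL3 c5 V A k m e δ c i₁ Q x hLim hball
  have hδk : δ ≤ k := by
    rw [hδ, ← hout x]
    exact Finset.card_le_card (Finset.filter_subset_filter _ (Finset.subset_univ Q))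
  rw [← hC', ← hc4] at hP2 ⊢
  rw [← hm'] at hP2
  -- the in-ball
  have hX := hlow' C' (by omega)
  have hT := FIN_.two hcl m' C' (by omega) x
  obtain ⟨f, hf⟩ : ∃ f, k = f + e := ⟨k - e, by omega⟩
  obtain ⟨s, hs⟩ : ∃ s, k = s + δ := ⟨k - δ, by omega⟩
  have hf' : k - e = f := by omega
  have hs' : k - δ = s := by omega
  rw [hf'] at hX
  rw [hs'] at hP1 hP2
  have e1 : m * k = m' * k + C' * k := by rw [← hmm']; ring
  have e2 : C' * k = C' * f + C' * e := by rw [hf]; ring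
  have e3 : m' * k = m' * s + m' * δ := by rw [hs]; ring
  have eC : C' * e ≤ C' * δ := Nat.mul_le_mul_left _ heδ
  have hup : (cb A x m').card ≤ m' * k + C' * δ := by omega
  have hP2' := hP2 hup
  have hK1 : K1 c c5 * δ = c4 * ((1 + c5 + c4 + C') * δ) + C' * δ + (2 * c4 + 1) * δ := by
    rw [K1, ← hC', ← hc4]
    ring
  by_cases hcase : outN A (cb A x i₁ ∪ Q) = Finset.univ ∧ i₁ + 2 * c4 + 1 ≤ m'
  · refine ⟨δ, x, m', hx, hδ.symm, fun v hv => by rw [hδ]; exact hxmin v hv, heδ, hmδ, by omega, by omega, ?_⟩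
    have h1 := hP2' hcase.1 hcase.2
    omega
  · have hlt : m' < i₁ + (2 * c4 + 1) := by
      by_contra hge
      rcases hi1s with h | h
      · exact hcase ⟨h, by omega⟩
      · omega
    refine ⟨δ, x, i₁, hx, hδ.symm, fun v hv => by rw [hδ]; exact hxmin v hv, heδ, hmδ, by omega, by omega, ?_⟩
    obtain ⟨j, hj⟩ : ∃ j, m' = i₁ + j := ⟨m' - i₁, by omega⟩
    have h1 := FIN_.steps hk he hin hcl gro x i₁ j (by omega)
    rw [hf', ← hj] at h1
    have h3 : m' * k = i₁ * s + i₁ * δ + j * f + j * e := by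
      rw [hj]
      have : (i₁ + j) * k = i₁ * k + j * k := by ring
      rw [this]
      nth_rewrite 1 [hs]
      rw [hf]
      ring
    have h4 : j * e ≤ (2 * c4 + 1) * δ := Nat.mul_le_mul (by omega) heδ
    omega

end FIN5_

/-- **the final count**, with natural numbers -/
theorem finC5 : ∃ K M : ℕ, ∀ (V : Type) [Fintype V] [Nonempty V]
    (A : V → V → Prop) (k m : ℕ), 1 ≤ k → M ≤ m → NoCl A m →
    (∀ v, (Finset.univ.filter fun u => A v u).card = k) → (∀ v, (Finset.univ.filter fun u => A u v).card = k) →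
    m * (m * k) ≤ m * Fintype.card V + K * k := by
  obtain ⟨c, M₁, hc, hA1⟩ := specA1
  obtain ⟨c5, hA2⟩ := specA2
  refine ⟨(FIN5_.K1 c c5 + c5) * c, M₁ + 1000 * c + 1000, ?_⟩
  intro V _ _ A k m hk hm hcl hout hin
  rcases Nat.lt_or_ge (m * k) (Fintype.card V) with hbig | hn
  · have := Nat.mul_le_mul_left m hbig.le
    omega
  have hex : ∃ e, ∀ F : Finset V, F.Nonempty → outN A F ≠ Finset.univ → F.card + k ≤ (outN A F).card + e :=
    ⟨k, fun F _ _ => Nat.add_le_add_right (Finset.card_le_card fun u hu =>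
      Pool.Agent.Lib.MP_83608f_co.CN.FIN_.mem_outN.2 (Or.inl hu)) k⟩
  obtain ⟨e, hee⟩ : ∃ e, e = Nat.find hex := ⟨_, rfl⟩
  have gro : ∀ F : Finset V, F.Nonempty → outN A F ≠ Finset.univ → F.card + k ≤ (outN A F).card + e := by
    rw [hee]
    exact Nat.find_spec hex
  have he : e ≤ k := by
    rw [hee]
    exact Nat.find_min' hex fun F _ _ => Nat.add_le_add_right (Finset.card_le_card fun u hu =>
      Pool.Agent.Lib.MP_83608f_co.CN.FIN_.mem_outN.2 (Or.inl hu)) k
  -- an extremal set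
  obtain ⟨Q, hQne, hQ, hQu⟩ : ∃ Q : Finset V, Q.Nonempty ∧ (outN A Q).card + e = Q.card + k ∧
      outN A Q ≠ Finset.univ := by
    rcases Nat.eq_zero_or_pos e with h0 | h0
    · obtain ⟨v⟩ := ‹Nonempty V›
      have h1 : cb A v 1 ≠ Finset.univ := FIN_.cb_ne hk hin hcl v 1 (by omega)
      have h2 : outN A ({v} : Finset V) = cb A v 1 := rfl
      refine ⟨{v}, ⟨v, Finset.mem_singleton_self v⟩, ?_, by rw [h2]; exact h1⟩
      have h3 := gro {v} ⟨v, Finset.mem_singleton_self v⟩ (by rw [h2]; exact h1)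
      have h4 : outN A ({v} : Finset V) ⊆ {v} ∪ (Finset.univ.filter fun u => A v u) := by
        intro z hz
        rcases Pool.Agent.Lib.MP_83608f_co.CN.FIN_.mem_outN.1 hz with h | ⟨w, hw, h⟩
        · exact Finset.mem_union_left _ h
        · rw [Finset.mem_singleton] at hw
          rw [hw] at h
          exact Finset.mem_union_right _ (Finset.mem_filter.2 ⟨Finset.mem_univ _, h⟩)
      have h5 := (Finset.card_le_card h4).trans (Finset.card_union_le _ _)
      rw [hout v] at h5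
      rw [Finset.card_singleton] at *
      omega
    · have h1 : ¬ ∀ F : Finset V, F.Nonempty → outN A F ≠ Finset.univ → F.card + k ≤ (outN A F).card + (e - 1) :=
        Nat.find_min hex (by omega)
      push Not at h1
      obtain ⟨F, hF, hFu, h2⟩ := h1
      have h3 := gro F hF hFu
      exact ⟨F, hF, by omega, hFu⟩
  -- choose the side
  have key : ∃ δ, m * δ ≤ c * k ∧ m * k ≤ Fintype.card V + (FIN5_.K1 c c5 + c5) * δ := by
    have fin : ∀ (B : V → V → Prop), NoCl B m → (∀ v, (Finset.univ.filter fun u => B v u).card = k) →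
        (∀ v, (Finset.univ.filter fun u => B u v).card = k) →
        (∀ F : Finset V, F.Nonempty → outN B F ≠ Finset.univ → F.card + k ≤ (outN B F).card + e) →
        ∀ P : Finset V, P.Nonempty → (outN B P).card + e = P.card + k → outN B P ≠ Finset.univ →
        2 * P.card ≤ Fintype.card V →
        ∃ δ, m * δ ≤ c * k ∧ m * k ≤ Fintype.card V + (FIN5_.K1 c c5 + c5) * δ := by
      intro B hclB houtB hinB groB P hPne hP hPu hP2
      obtain ⟨δ, x, t, hx, hδx, hδ, heδ, hmδ, htm, hmt, hT⟩ := FIN5_.core5 specL2 (specL3 specL2) hA2 hc hk he houtB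
        hinB hclB groB hn (by omega) P hPne hP hPu hP2
        (hA1 V B k m hk (by omega) hclB houtB hinB P hPne (by omega) (by omega))
      refine ⟨δ, hmδ, ?_⟩
      have h1 := hA2 V B m δ P x hclB hx hδ t htm
      have h2 : (FIN5_.K1 c c5 + c5) * δ = FIN5_.K1 c c5 * δ + c5 * δ := by ring
      omega
    rcases Nat.lt_or_ge (Fintype.card V) (2 * Q.card) with hlt | hge
    · obtain ⟨g1, g2, g3⟩ := FIN_.other gro Q hQne hQ hQu
      have g4 : 2 * ((outN A Q)ᶜ).card ≤ Fintype.card V := by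
        rw [Finset.card_compl]
        omega
      exact fin (fun a b => A b a) (CUT_.nocl_flip hcl) hin hout (FIN_.gro_flip gro) _ g1 g3 g2 g4
    · exact fin A hcl hout hin gro Q hQne hQ hQu hge
  obtain ⟨δ, h1, h2⟩ := key
  have h3 := Nat.mul_le_mul_left m h2
  have h4 : m * (Fintype.card V + (FIN5_.K1 c c5 + c5) * δ) =
      m * Fintype.card V + (FIN5_.K1 c c5 + c5) * (m * δ) := by ring
  have h5 : (FIN5_.K1 c c5 + c5) * (m * δ) ≤ (FIN5_.K1 c c5 + c5) * (c * k) := Nat.mul_le_mul_left _ h1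
  have h6 : (FIN5_.K1 c c5 + c5) * (c * k) = (FIN5_.K1 c c5 + c5) * c * k := by ring
  omega

/-- **the theorem** -/
theorem fin5 : ∃ C : ℝ, ∀ (V : Type) [Fintype V] [Nonempty V] (A : V → V → Prop) (k m : ℕ), 1 ≤ k → 1 ≤ m → NoCl A m →
    (∀ v, (Finset.univ.filter fun u => A v u).card = k) → (∀ v, (Finset.univ.filter fun u => A u v).card = k) →
    ((m : ℝ) - C / m) * k ≤ Fintype.card V := by
  obtain ⟨K, M, h⟩ := finC5
  refine ⟨K + M * M, fun V _ _ A k m hk hm hcl hout hin => ?_⟩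
  have hm0 : (0 : ℝ) < m := by exact_mod_cast hm
  have hk0 : (0 : ℝ) ≤ k := Nat.cast_nonneg k
  have hn0 : (0 : ℝ) ≤ Fintype.card V := Nat.cast_nonneg _
  have hK0 : (0 : ℝ) ≤ K := Nat.cast_nonneg _
  have hM0 : (0 : ℝ) ≤ M := Nat.cast_nonneg _
  rcases Nat.lt_or_ge m M with hlt | hge
  · have h1 : (m : ℝ) ≤ M := by exact_mod_cast hlt.le
    have h3 : (m : ℝ) ≤ (K + M * M) / m := by
      rw [le_div_iff₀ hm0]
      nlinarith
    have h4 : ((m : ℝ) - (K + M * M) / m) * k ≤ 0 := mul_nonpos_of_nonpos_of_nonneg (by linarith) hk0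
    linarith
  · have h1 := h V A k m hk hge hcl hout hin
    have h2 : (m : ℝ) * (m * k) ≤ m * Fintype.card V + K * k := by exact_mod_cast h1
    have h3 : (m : ℝ) * k ≤ Fintype.card V + K / m * k := by
      have e1 : (m : ℝ) * Fintype.card V + K * k = m * (Fintype.card V + K / m * k) := by
        field_simp
      rw [e1] at h2
      exact le_of_mul_le_mul_left h2 hm0
    have h4 : (K : ℝ) / m ≤ (K + M * M) / m := by
      apply div_le_div_of_nonneg_right _ hm0.le
      have : (0 : ℝ) ≤ M * M := by positivity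
      linarith
    have h5 := mul_le_mul_of_nonneg_right h4 hk0
    have h6 : ((m : ℝ) - (K + M * M) / m) * k = m * k - (K + M * M) / m * k := by ring
    rw [h6]
    linarith

/-- `n ≥ (g - 1 - C/g) k` in the words of the problem -/
theorem asy5 : ∃ C : ℝ, ∀ (V : Type) [Finite V] [Nonempty V] (G : Digraph V) (k g : ℕ), 1 ≤ k → 2 ≤ g →
    (∀ v, Nat.card {u // G.Adj v u} = k) → (∀ v, Nat.card {u // G.Adj u v} = k) → EM.GirthGe G g →
    ((g : ℝ) - 1 - C / g) * k ≤ Nat.card V := by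
  obtain ⟨C, hC⟩ := fin5
  refine ⟨2 * |C|, fun V _ _ G k g hk hg hout hin hgirth => ?_⟩
  have := Fintype.ofFinite V
  obtain ⟨m, rfl⟩ : ∃ m, g = m + 1 := ⟨g - 1, by omega⟩
  have hm : 1 ≤ m := by omega
  have h := hC V G.Adj k m hk hm (Top_.noCl hgirth) (fun v => by convert Top_.out_card hout v)
    (fun v => by convert Top_.in_card hin v)
  rw [Nat.card_eq_fintype_card]
  refine le_trans ?_ h
  have hm1 : (1 : ℝ) ≤ m := by exact_mod_cast hm
  have h3 : C / (m : ℝ) ≤ 2 * |C| / ((m : ℝ) + 1) := by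
    rw [div_le_div_iff₀ (by linarith) (by linarith)]
    calc C * ((m : ℝ) + 1) ≤ |C| * ((m : ℝ) + 1) :=
          mul_le_mul_of_nonneg_right (le_abs_self C) (by linarith)
      _ ≤ |C| * (2 * m) := mul_le_mul_of_nonneg_left (by linarith) (abs_nonneg C)
      _ = 2 * |C| * m := by ring
  push_cast
  refine mul_le_mul_of_nonneg_right ?_ (Nat.cast_nonneg k)
  linarith

end Pool.Agent.Lib.MP_83608f_co.LIM
end
end

section
/-! MP_83608f_co, part LIM, module FIN6 (helper56): `n ≥ (g - 1 - 14000000/g) k`, with explicit constant. -/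
set_option autoImplicit false

open Classical

noncomputable section

namespace Pool.Agent.Lib.MP_83608f_co.LIM

open Pool.Agent.Lib.MP_83608f_co.CN
open LAY_ (cb)
open SD_ (rs)

namespace FIN6_

/-- `specA1` with `c = 6`, `M = 70` -/
lemma a1 (V : Type) [Fintype V] (A : V → V → Prop) (k m : ℕ) (hk : 1 ≤ k) (hm : 70 ≤ m) (hcl : NoCl A m)
    (hout : ∀ v, (Finset.univ.filter fun u => A v u).card = k)
    (hin : ∀ v, (Finset.univ.filter fun u => A u v).card = k) (Q : Finset V) (hQ : Q.Nonempty)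
    (h2 : 2 * Q.card ≤ m * k) (hS : (outN A Q).card ≤ Q.card + k) :
    ∃ v ∈ Q, m * (Q.filter fun u => A v u).card ≤ 6 * k := by
  obtain ⟨x, hx, hxmin⟩ := Finset.exists_min_image Q (fun v => (Q.filter fun u => A v u).card) hQ
  have hsub : Q ⊆ outN A Q := fun u hu => Pool.Agent.Lib.MP_83608f_co.CN.FIN_.mem_outN.2 (Or.inl hu)
  have h3 := Finset.card_sdiff_add_card_eq_card hsub
  refine ⟨x, hx, LG_.a1 hm hk hcl hout hin Q (outN A Q \ Q) hQ (by omega) h2 (fun a ha b hab => ?_) _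
    (fun a ha => hxmin a ha)⟩
  by_cases hb : b ∈ Q
  · exact Or.inl hb
  · exact Or.inr (Finset.mem_sdiff.2
      ⟨Pool.Agent.Lib.MP_83608f_co.CN.FIN_.mem_outN.2 (Or.inr ⟨a, ha, hab⟩), hb⟩)

/-- `specA2` with `c₅ = 45` -/
lemma a2 (V : Type) [Fintype V] (A : V → V → Prop) (m δ : ℕ) (Q : Finset V) (x : V) (hcl : NoCl A m) (hx : x ∈ Q)
    (hQ : ∀ v ∈ Q, δ ≤ (Q.filter fun u => A v u).card) (j : ℕ) (hj : j ≤ m) :
    j * δ ≤ (cb (rs A Q) x j).card + 45 * δ := by
  rcases Nat.eq_zero_or_pos δ with h0 | h0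
  · rw [h0]
    omega
  · have h := LIMA2_.ball_all (A := A) (m := m) (r := δ) h0 hcl Q hQ x hx j hj
    have h1 : ((j * δ : ℕ) : ℝ) ≤ (((cb (rs A Q) x j).card + 45 * δ : ℕ) : ℝ) := by
      push_cast
      have h2 : ((j : ℝ) - 45) * δ ≤ (cb (rs A Q) x j).card := h
      linarith
    exact_mod_cast h1

end FIN6_

/-- **the final count**, with explicit constants -/
theorem finC6 (V : Type) [Fintype V] [Nonempty V] (A : V → V → Prop) (k m : ℕ) (hk : 1 ≤ k) (hm : 7000 ≤ m)
    (hcl : NoCl A m) (hout : ∀ v, (Finset.univ.filter fun u => A v u).card = k)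
    (hin : ∀ v, (Finset.univ.filter fun u => A u v).card = k) :
    m * (m * k) ≤ m * Fintype.card V + 13719210 * k := by
  rcases Nat.lt_or_ge (m * k) (Fintype.card V) with hbig | hn
  · have := Nat.mul_le_mul_left m hbig.le
    omega
  have hex : ∃ e, ∀ F : Finset V, F.Nonempty → outN A F ≠ Finset.univ → F.card + k ≤ (outN A F).card + e :=
    ⟨k, fun F _ _ => Nat.add_le_add_right (Finset.card_le_card fun u hu =>
      Pool.Agent.Lib.MP_83608f_co.CN.FIN_.mem_outN.2 (Or.inl hu)) k⟩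
  obtain ⟨e, hee⟩ : ∃ e, e = Nat.find hex := ⟨_, rfl⟩
  have gro : ∀ F : Finset V, F.Nonempty → outN A F ≠ Finset.univ → F.card + k ≤ (outN A F).card + e := by
    rw [hee]
    exact Nat.find_spec hex
  have he : e ≤ k := by
    rw [hee]
    exact Nat.find_min' hex fun F _ _ => Nat.add_le_add_right (Finset.card_le_card fun u hu =>
      Pool.Agent.Lib.MP_83608f_co.CN.FIN_.mem_outN.2 (Or.inl hu)) k
  -- an extremal set
  obtain ⟨Q, hQne, hQ, hQu⟩ : ∃ Q : Finset V, Q.Nonempty ∧ (outN A Q).card + e = Q.card + k ∧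
      outN A Q ≠ Finset.univ := by
    rcases Nat.eq_zero_or_pos e with h0 | h0
    · obtain ⟨v⟩ := ‹Nonempty V›
      have h1 : cb A v 1 ≠ Finset.univ := FIN_.cb_ne hk hin hcl v 1 (by omega)
      have h2 : outN A ({v} : Finset V) = cb A v 1 := rfl
      refine ⟨{v}, ⟨v, Finset.mem_singleton_self v⟩, ?_, by rw [h2]; exact h1⟩
      have h3 := gro {v} ⟨v, Finset.mem_singleton_self v⟩ (by rw [h2]; exact h1)
      have h4 : outN A ({v} : Finset V) ⊆ {v} ∪ (Finset.univ.filter fun u => A v u) := by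
        intro z hz
        rcases Pool.Agent.Lib.MP_83608f_co.CN.FIN_.mem_outN.1 hz with h | ⟨w, hw, h⟩
        · exact Finset.mem_union_left _ h
        · rw [Finset.mem_singleton] at hw
          rw [hw] at h
          exact Finset.mem_union_right _ (Finset.mem_filter.2 ⟨Finset.mem_univ _, h⟩)
      have h5 := (Finset.card_le_card h4).trans (Finset.card_union_le _ _)
      rw [hout v] at h5
      rw [Finset.card_singleton] at *
      omega
    · have h1 : ¬ ∀ F : Finset V, F.Nonempty → outN A F ≠ Finset.univ → F.card + k ≤ (outN A F).card + (e - 1) :=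
        Nat.find_min hex (by omega)
      push Not at h1
      obtain ⟨F, hF, hFu, h2⟩ := h1
      have h3 := gro F hF hFu
      exact ⟨F, hF, by omega, hFu⟩
  -- choose the side
  have key : ∃ δ, m * δ ≤ 6 * k ∧ m * k ≤ Fintype.card V + (FIN5_.K1 6 45 + 45) * δ := by
    have fin : ∀ (B : V → V → Prop), NoCl B m → (∀ v, (Finset.univ.filter fun u => B v u).card = k) →
        (∀ v, (Finset.univ.filter fun u => B u v).card = k) →
        (∀ F : Finset V, F.Nonempty → outN B F ≠ Finset.univ → F.card + k ≤ (outN B F).card + e) →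
        ∀ P : Finset V, P.Nonempty → (outN B P).card + e = P.card + k → outN B P ≠ Finset.univ →
        2 * P.card ≤ Fintype.card V →
        ∃ δ, m * δ ≤ 6 * k ∧ m * k ≤ Fintype.card V + (FIN5_.K1 6 45 + 45) * δ := by
      intro B hclB houtB hinB groB P hPne hP hPu hP2
      obtain ⟨δ, x, t, hx, hδx, hδ, heδ, hmδ, htm, hmt, hT⟩ := FIN5_.core5 specL2 (specL3 specL2) FIN6_.a2
        (c := 6) (by omega) hk he houtB
        hinB hclB groB hn (by omega) P hPne hP hPu hP2
        (FIN6_.a1 V B k m hk (by omega) hclB houtB hinB P hPne (by omega) (by omega))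
      refine ⟨δ, hmδ, ?_⟩
      have h1 := FIN6_.a2 V B m δ P x hclB hx hδ t htm
      have h2 : (FIN5_.K1 6 45 + 45) * δ = FIN5_.K1 6 45 * δ + 45 * δ := by ring
      omega
    rcases Nat.lt_or_ge (Fintype.card V) (2 * Q.card) with hlt | hge
    · obtain ⟨g1, g2, g3⟩ := FIN_.other gro Q hQne hQ hQu
      have g4 : 2 * ((outN A Q)ᶜ).card ≤ Fintype.card V := by
        rw [Finset.card_compl]
        omega
      exact fin (fun a b => A b a) (CUT_.nocl_flip hcl) hin hout (FIN_.gro_flip gro) _ g1 g3 g2 g4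
    · exact fin A hcl hout hin gro Q hQne hQ hQu hge
  obtain ⟨δ, h1, h2⟩ := key
  have hK : FIN5_.K1 6 45 + 45 = 2286535 := by norm_num [FIN5_.K1]
  rw [hK] at h2
  have h3 := Nat.mul_le_mul_left m h2
  have h4 : m * (Fintype.card V + 2286535 * δ) = m * Fintype.card V + 2286535 * (m * δ) := by ring
  have h5 : 2286535 * (m * δ) ≤ 2286535 * (6 * k) := Nat.mul_le_mul_left _ h1
  have h6 : 2286535 * (6 * k) = 13719210 * k := by ring
  omega

/-- `n ≥ (g - 1 - 14000000/g) k` in the words of the problem -/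
theorem asy6 (V : Type) [Finite V] [Nonempty V] (G : Digraph V) (k g : ℕ)
    (hout : ∀ v, Nat.card {u // G.Adj v u} = k) (hin : ∀ v, Nat.card {u // G.Adj u v} = k) (hgirth : EM.GirthGe G g) :
    ((g : ℝ) - 1 - 14000000 / g) * k ≤ Nat.card V := by
  have hk0 : (0 : ℝ) ≤ k := Nat.cast_nonneg k
  have hn0 : (0 : ℝ) ≤ Nat.card V := Nat.cast_nonneg _
  rcases Nat.eq_zero_or_pos k with hk | hk
  · rw [hk]
    simp
  rcases Nat.lt_or_ge g 500 with hsmall | hbig
  · -- trivial
    have hg1 : (g : ℝ) ≤ 500 := by exact_mod_cast hsmall.le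
    have hle : ((g : ℝ) - 1 - 14000000 / g) ≤ 0 := by
      rcases Nat.eq_zero_or_pos g with hg | hg
      · rw [hg]
        norm_num
      · have hg0 : (0 : ℝ) < g := by exact_mod_cast hg
        have h1 : (g : ℝ) ≤ 14000000 / g := by
          rw [le_div_iff₀ hg0]
          nlinarith
        linarith
    have := mul_nonpos_of_nonpos_of_nonneg hle hk0
    linarith
  have := Fintype.ofFinite V
  obtain ⟨m, rfl⟩ : ∃ m, g = m + 1 := ⟨g - 1, by omega⟩
  have hcl := Top_.noCl hgirth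
  have hout' : ∀ v, (Finset.univ.filter fun u => G.Adj v u).card = k := fun v => by
    convert Top_.out_card hout v
  have hin' : ∀ v, (Finset.univ.filter fun u => G.Adj u v).card = k := fun v => by
    convert Top_.in_card hin v
  rw [Nat.card_eq_fintype_card]
  have hm : (499 : ℝ) ≤ m := by exact_mod_cast (by omega : 499 ≤ m)
  have hm0 : (0 : ℝ) < m := by linarith
  rcases Nat.lt_or_ge m 7000 with hlt | hge
  · have h1 := topG (A := G.Adj) (m := m) (by omega) hk hcl hout' hin' (hasCert_tail (by omega))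
    have h2 : (((m - 1) * k + 1 : ℕ) : ℝ) ≤ Fintype.card V := by exact_mod_cast h1
    rw [Nat.cast_add, Nat.cast_mul, Nat.cast_sub (by omega)] at h2
    push_cast at h2 ⊢
    have hm1 : (m : ℝ) ≤ 7000 := by exact_mod_cast hlt.le
    have h5 : (1 : ℝ) ≤ 14000000 / (m + 1) := by
      rw [le_div_iff₀ (by linarith)]
      linarith
    have h6 : ((m : ℝ) + 1 - 1 - 14000000 / (m + 1)) * k ≤ (m - 1) * k :=
      mul_le_mul_of_nonneg_right (by linarith) hk0
    linarith
  · have h := finC6 V G.Adj k m hk hge hcl hout' hin'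
    have h2 : (m : ℝ) * (m * k) ≤ m * Fintype.card V + 13719210 * k := by exact_mod_cast h
    have h3 : (m : ℝ) * k ≤ Fintype.card V + 13719210 / m * k := by
      have e1 : (m : ℝ) * Fintype.card V + 13719210 * k = m * (Fintype.card V + 13719210 / m * k) := by
        field_simp
      rw [e1] at h2
      exact le_of_mul_le_mul_left h2 hm0
    have h4 : (13719210 : ℝ) / m ≤ 14000000 / (m + 1) := by
      rw [div_le_div_iff₀ hm0 (by linarith)]
      linarith
    have h5 := mul_le_mul_of_nonneg_right h4 hk0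
    push_cast
    have h6 : ((m : ℝ) + 1 - 1 - 14000000 / (m + 1)) * k = m * k - 14000000 / (m + 1) * k := by ring
    rw [h6]
    linarith

end Pool.Agent.Lib.MP_83608f_co.LIM
end
end
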