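import Pool.Agent.Lib.MP_83608f_co.CN.K7D
import Pool.Agent.Lib.MP_83608f_co.CN.TOPV

/-!
# MP_83608f_co, part LIM (helper16): `n ≥ (g - 1 - C/√g) k` for every `k`-diregular digraph of girth at least `g`

Paper proof: /team-store/MP_83608f_h16_LIM.md.  Module XXX = file LIM/XXX.lean,
`import Pool.Agent.Lib.MP_83608f_co.LIM.Spec`, `namespace Pool.Agent.Lib.MP_83608f_co.LIM`, own lemmas in `namespace XXX_`.
`A` is the adjacency relation, `m = g - 1`, `NoCl A m`: no closed walk of length `1, .., m`.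
`LAY_.cb A x i` = out-ball of radius `i`, `LAY_.cb (fun a b => A b a) x i` = in-ball, `SD_.rs A Q` = the digraph inside `Q`.
-/

set_option autoImplicit false

open Classical

noncomputable section

namespace Pool.Agent.Lib.MP_83608f_co.LIM

open Pool.Agent.Lib.MP_83608f_co.CN
open LAY_ (cb)
open SD_ (rs)

/-- `x` and `z` have a common ancestor at distance at most `T` -/
def Near {V : Type} [Fintype V] (A : V → V → Prop) (T : ℕ) (x z : V) : Prop := ∃ w, x ∈ cb A w T ∧ z ∈ cb A w T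

/-- The situation of sections 1 - 4 of the note: `Q` is a fragment of maximal excess `e`, `x ∈ Q` has the least out-degree `δ`
inside `Q`, and the balls `cb A x i`, `i < i₁`, have not yet swallowed the other side of `Q`. -/
structure Lim {V : Type} [Fintype V] (A : V → V → Prop) (k m e δ c i₁ : ℕ) (Q : Finset V) (x : V) : Prop where
  hk : 1 ≤ k
  hc : 1 ≤ c
  hout : ∀ v, (Finset.univ.filter fun u => A v u).card = k
  hin : ∀ v, (Finset.univ.filter fun u => A u v).card = k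
  hcl : NoCl A m
  gro : ∀ F : Finset V, F.Nonempty → outN A F ≠ Finset.univ → F.card + k ≤ (outN A F).card + e
  gri : ∀ F : Finset V, F.Nonempty → outN (fun a b => A b a) F ≠ Finset.univ →
    F.card + k ≤ (outN (fun a b => A b a) F).card + e
  hn : Fintype.card V ≤ m * k
  he : e ≤ δ
  hδ : m * δ ≤ c * k
  hm : 1000 * c + 1000 ≤ m
  hx : x ∈ Q
  hδx : (Q.filter fun u => A x u).card = δ
  hδQ : ∀ v ∈ Q, δ ≤ (Q.filter fun u => A v u).card
  hQ : (outN A Q).card + e = Q.card + k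
  hQu : outN A Q ≠ Finset.univ
  hi : ∀ i < i₁, outN A (cb A x i ∪ Q) ≠ Finset.univ
  hi₁ : 450 * c + 300 ≤ i₁
  hi₁' : i₁ ≤ m

/-- `S_x`: the out-neighbours of `x` outside `Q` -/
def Sx {V : Type} [Fintype V] (A : V → V → Prop) (Q : Finset V) (x : V) : Finset V :=
  (Finset.univ.filter fun u => A x u) \ Q

/-- L2 [helper16], sections 1, 2 and (F4), (F6) of the note. -/
def SpecL2 : Prop := ∀ (V : Type) [Fintype V] (A : V → V → Prop) (k m e δ c i₁ : ℕ) (Q : Finset V) (x : V),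
  Lim A k m e δ c i₁ Q x →
  (∀ v t, t + 1 ≤ m → t * k + 1 ≤ (cb A v t).card + c * k) ∧
  (∀ v t, t + 1 ≤ m → t * k + 1 ≤ (cb (fun a b => A b a) v t).card + c * k) ∧
  (∀ v t, t ≤ m → (cb A v t).card ≤ (t + c) * k) ∧
  (∀ v t, t ≤ m → (cb (fun a b => A b a) v t).card ≤ (t + c) * k) ∧
  (Sx A Q x).card = k - δ ∧ ((outN A Q \ Q) \ Sx A Q x).card = δ - e ∧
  (∀ i < i₁, (cb A x i).card + (k - δ) + (cb A x (i + 1) ∩ Q).card ≤ (cb A x (i + 1)).card + (cb A x i ∩ Q).card) ∧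
  (∀ i ≤ i₁, i * (k - δ) + (cb A x i ∩ Q).card ≤ (cb A x i).card) ∧
  (∀ T z t, Near A T x z → t + T ≤ m → t ≤ i₁ → (cb A z t ∩ Q).card ≤ (T + 5 * c) * k) ∧
  (∀ z ∈ Q, ∀ t, (cb A z t ∩ Q).card + (k - δ) ≤ (cb A z (t + 1) ∩ Q).card + (Sx A Q x ∩ cb A z (t + 1)).card)

/-- L3 [helper50] (L2), the gap lemma and (F9), (F10).  `T₀ = 6c+2`, `T₁ = 9c+3`, `C' = 238c+51`, `c₃ = 75c+14`.
Numbers: `M_T = T + 5c`, `r(T) = 5 M_T`, `|S_x ∩ B_r(z)| ≥ (3/4)|S_x|` for `r = r(T)`; `t* ≤ 2 M_T`; `T'' = T + 2 M_T`; if `t* ≥ 3c+3` then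
`d(z,x) ≤ t* - 1 + r(T'') - 1 ≤ C'` for `T ≤ T₁`; if `t* ≤ 3c+2` then `z` is `(6c+2)`-near. -/
def SpecL3 : Prop := ∀ (V : Type) [Fintype V] (A : V → V → Prop) (k m e δ c i₁ : ℕ) (Q : Finset V) (x : V),
  Lim A k m e δ c i₁ Q x →
  (∀ z ∈ Q, Near A (9 * c + 3) x z → Near A (6 * c + 2) x z ∨ x ∈ cb A z (238 * c + 51)) ∧
  (∀ a, ∀ s ∈ Sx A Q x, A a s → Near A (6 * c + 2) x a) ∧
  (∀ a z, A a z → Near A (6 * c + 2) x z → Near A (9 * c + 3) x a) ∧
  (∀ a z, A a z → Near A (6 * c + 2) x a → Near A (9 * c + 3) x z) ∧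
  (Q.filter fun z => Near A (6 * c + 2) x z).card ≤ (75 * c + 14) * k

/-- A1 [100 lines] from `specWTH` (CN/WTH, hypotheses discharged in CN/WAll or WFI): a nonempty set `Q` with at most `mk/2` vertices
and `|∂Q| ≤ k` has a vertex with at most `ck/m` out-neighbours in `Q`, if `m` is large (`c`, `M` absolute).
Proof: as in `SpecWFR`: if all `dT A Q v ≥ τ := c₁ k`, `c₁ = c/m ≤ 1/2`, then WTH gives
`G ≤ |Q|/k + (flux + k²/4)/(kτ) ≤ m/2 + (5/4) m/c`, while `G = 27m/40 - 12/5` (or any number `≥ (1/2 + 1/100) m`) satisfies `NumW t s c₁ G`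
for `t = s = ⌊m/2⌋ - 1` (see CN/WNU for the numbers with `c₁ = 50/(7m)`). So e.g. `c = 8`. Any absolute `c` is fine. -/
def SpecA1 : Prop := ∃ c M : ℕ, 1 ≤ c ∧ ∀ (V : Type) [Fintype V] (A : V → V → Prop) (k m : ℕ), 1 ≤ k → M ≤ m → NoCl A m →
  (∀ v, (Finset.univ.filter fun u => A v u).card = k) → (∀ v, (Finset.univ.filter fun u => A u v).card = k) →
  ∀ Q : Finset V, Q.Nonempty → 2 * Q.card ≤ m * k → (outN A Q).card ≤ Q.card + k →
  ∃ v ∈ Q, m * (Q.filter fun u => A v u).card ≤ c * k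

/-- A2 [250 lines]: (a) Caccetta-Häggkvist with an additive constant: minimum out-degree `≥ r`, no closed walk of length
`1, .., m` ⟹ `m r ≤ n + c₅ r`; (b) the trick of the note: for every `x ∈ Q`, if all out-degrees in `D[Q]` are at least `δ`, the ball of radius
`j ≤ m` of `x` in `D[Q]` has at least `(j - c₅) δ` vertices.  (a): `CN/DCH.dch` applied to the digraph inside a ball `T = B_a(x)`, `K = r`,
`d u = r` outside the last layer and `d u = r - h` on the last layer, `h = |B_(a+1)| - |B_a| < r`; it gives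
`|B_a| + |L_a| h/(ε q) ≥ C r`, `ε = min (r - h) (r/5)`, `C ≥ .6 m`; so `h_a ≥ r - θ h_(a-1)`, `θ = O(1/m)`, while `|B_a| ≤ mr/2`; so every ball of
radius `⌊m/2⌋` has at least `(m/2 - O(1)) r` vertices; average of out-ball and in-ball (`THC_.sum_flip`). -/
def SpecA2 : Prop := ∃ c₅ : ℕ, ∀ (V : Type) [Fintype V] (A : V → V → Prop) (m δ : ℕ) (Q : Finset V) (x : V), NoCl A m → x ∈ Q →
  (∀ v ∈ Q, δ ≤ (Q.filter fun u => A v u).card) → ∀ j ≤ m, j * δ ≤ (cb (rs A Q) x j).card + c₅ * δ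

/-- LP [module L4] (L2, L3), the result of sections 1 - 4: with `m' = m - (238c+51)`, `c₃ = 75c+14`, `c₄ = 2+2c₃`.
(1) `|B_(i₁)| ≥ i₁ (k-δ) + |B^Q_(i₁)|` (2) if `N+[B_(i₁) ∪ Q] = V` and `L ≥ 2c₄`, `i₁ + L ≤ m'` then
`m' (k-δ) + |B^Q_(m')| - 2 c₃ c₄ k / L ≤ |B_(m')|`. -/
def SpecLP : Prop := ∀ (V : Type) [Fintype V] (A : V → V → Prop) (k m e δ c i₁ : ℕ) (Q : Finset V) (x : V),
  Lim A k m e δ c i₁ Q x →
  (i₁ * (k - δ) + (cb (rs A Q) x i₁).card ≤ (cb A x i₁).card) ∧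
  (outN A (cb A x i₁ ∪ Q) = Finset.univ → ∀ L : ℕ, 2 * (150 * c + 30) ≤ L → i₁ + L ≤ m - (238 * c + 51) →
    L * ((m - (238 * c + 51)) * (k - δ) + (cb (rs A Q) x (m - (238 * c + 51))).card) ≤
      L * (cb A x (m - (238 * c + 51))).card + 2 * (75 * c + 14) * (150 * c + 30) * k)

/-- FIN [200 lines] (A1, A2, LP): the theorem.  Proof: `n < (m - C/√m) k ≤ mk`.  For small `m` choose `C` large.  Take the maximum `e` of
`F.card + k - (outN A F).card` over `F` nonempty, `outN A F ≠ univ` (the same maximum for the reversed digraph: complement of `outN A F`), and an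
extremal `Q`; if `e = 0` then `n ≥ mk + 1` (balls); replace `D` by the reversed digraph and `Q` by `univ \ outN A Q` if `2|Q| > n`.  A1 gives
`m δ ≤ ck` for the least out-degree `δ` in `D[Q]`, attained at `x`; `e ≤ δ`: an out-neighbour of `v ∈ Q` is in `Q` or in
`outN A Q \ Q`, which has `k - e` elements.  `i₁` = the least `i` with `outN A (cb A x i ∪ Q) = univ`, or `m'` if there is none `< m'`
(then (1) of LP suffices); `i₁ ≥ m/2 - O(c)`: `U = univ \ outN A Q` has at least `n/2 - k` vertices, `n ≥ (m-1)k`, and `U ⊆ cb A x (i₁+1)`.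
`L = ⌊√m⌋`.  Then `n + 1 ≥ |B_(m')(x)| + |in-ball of radius m - m'|`. -/
def SpecFIN : Prop := ∃ C : ℝ, ∀ (V : Type) [Fintype V] [Nonempty V] (A : V → V → Prop) (k m : ℕ), 1 ≤ k → 1 ≤ m → NoCl A m →
  (∀ v, (Finset.univ.filter fun u => A v u).card = k) → (∀ v, (Finset.univ.filter fun u => A u v).card = k) →
  ((m : ℝ) - C / √m) * k ≤ Fintype.card V

end Pool.Agent.Lib.MP_83608f_co.LIM
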